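import Pool.Agent.T6.H1.Lz.Abs
import Pool.Agent.W171.LG.LenMain
import Pool.Agent.W171.LG.LenDat
import Pool.Agent.Y855.B17

/-! # Lenstra's density for the prime divisors of the index in a thin set -/

set_option autoImplicit false
set_option linter.unusedSectionVars false

namespace Pool.Agent.T6.H1.Lz

open NumberField Filter Topology Finset IntermediateField
open Pool.Agent.W401.Cheb
open Pool.Agent.W171.LG
open Pool.Agent.H386R2.Artin (PP LC_pos)
open Pool.Agent.H981R3.LN (ql Sk mem_Sk mem_PP Sk_prime Qn Qn_dvd Qn_pos)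
open Pool.Agent.H730R2.AA.Euler (mu_eq_prod)
open Pool.Agent.T6.H1.Th (Ry mem_Ry)

/-- the reduction of `W` modulo `p` -/
def Gp (W : Subgroup ℚˣ) (p : ℕ) : Subgroup (ZMod p)ˣ :=
  Subgroup.closure {u : (ZMod p)ˣ | ∃ w ∈ W,
    (((w : ℚ).num : ℤ) : ZMod p) = (u : ZMod p) * (((w : ℚ).den : ℕ) : ZMod p)}

lemma index_dvd (W : Subgroup ℚˣ) {p : ℕ} (hp : p.Prime) : (Gp W p).index ∣ p - 1 := by
  have : Fact p.Prime := ⟨hp⟩
  have hcard : Nat.card (ZMod p)ˣ = p - 1 := by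
    rw [Nat.card_eq_fintype_card, ZMod.card_units]
  rw [← hcard]
  exact Subgroup.index_dvd_card _

lemma dvd_index_iff {W : Subgroup ℚˣ} {p : ℕ} [hp : Fact p.Prime] (hU : UnW W p) (d : ℕ) :
    d ∣ (Gp W p).index ↔ PW W d p := by
  by_cases hd : d ∣ p - 1
  · rw [index_dvd_iff _ hd]
    unfold PW
    constructor
    · intro h
      refine ⟨hd, fun w hw => ?_⟩
      have h0 := rd_ne (hU w hw)
      have h1 := h (Units.mk0 _ h0) (Subgroup.subset_closure ⟨w, hw, by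
        rw [Units.val_mk0]
        unfold rd
        rw [mul_assoc, inv_mul_cancel₀ (hU w hw).2, mul_one]⟩)
      have h2 := congrArg (fun z : (ZMod p)ˣ => (z : ZMod p)) h1
      simpa using h2
    · rintro ⟨-, h⟩
      refine pow_closure ?_
      rintro u ⟨w, hw, hu⟩
      have h1 : (u : ZMod p) = rd p (w : ℚ) := by
        unfold rd
        rw [hu, mul_assoc, mul_inv_cancel₀ (hU w hw).2, mul_one]
      apply Units.ext
      rw [Units.val_pow_eq_pow_val, h1, h w hw, Units.val_one]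
  · constructor
    · exact fun h => absurd (h.trans (index_dvd W hp.out)) hd
    · exact fun h => absurd h.1 hd

section
variable (F : IntermediateField ℚ QA) [NumberField F] [IsGalois ℚ F] (C : Set Gal(F/ℚ))
  (W : Subgroup ℚˣ) (k : ℕ)

/-- the terms of Lenstra's series -/
noncomputable def bT (n : ℕ) : ℝ :=
  ((ArithmeticFunction.moebius n : ℤ) : ℝ) * (cE F C (Lf QA W (Qn k n)) : ℝ) /
    (Module.finrank ℚ (F ⊔ Lf QA W (Qn k n) : IntermediateField ℚ QA) : ℝ)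

open Classical in
/-- the terms for the integers composed of primes in `R` -/
noncomputable def gR (R : Set ℕ) (n : ℕ) : ℝ := if ∀ l ∈ n.primeFactors, l ∈ R then bT F C W k n else 0

lemma finrank_pos_sup (hW : W.FG) {q : ℕ} (hq : 0 < q) :
    0 < Module.finrank ℚ (F ⊔ Lf QA W q : IntermediateField ℚ QA) := by
  have := supF_fin F hW hq
  exact Module.finrank_pos

lemma ql_pos {l : ℕ} (hl : l.Prime) : 0 < ql k l := by
  unfold ql
  exact pow_pos hl.pos _

lemma tot_prod (k : ℕ) (I : Finset ℕ) (hI : ∀ l ∈ I, l.Prime) :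
    ∏ l ∈ I, ((l : ℝ) - 1) ≤ (Nat.totient (∏ l ∈ I, ql k l) : ℝ) := by
  have hdvd : (∏ l ∈ I, l) ∣ ∏ l ∈ I, ql k l := by
    apply Finset.prod_dvd_prod_of_dvd
    intro l _
    unfold ql
    exact dvd_pow_self l (by omega)
  have h0 : 0 < ∏ l ∈ I, ql k l := Finset.prod_pos fun l hl => ql_pos k (hI l hl)
  have h1 : Nat.totient (∏ l ∈ I, l) ≤ Nat.totient (∏ l ∈ I, ql k l) :=
    Nat.le_of_dvd (Nat.totient_pos.2 h0) (Nat.totient_dvd_of_dvd hdvd)
  have h2 : ∀ I : Finset ℕ, (∀ l ∈ I, l.Prime) → ∏ l ∈ I, ((l : ℝ) - 1) = (Nat.totient (∏ l ∈ I, l) : ℝ) := by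
    classical
    intro I
    induction I using Finset.induction_on with
    | empty => intro _; simp
    | insert a s ha ih =>
      intro h
      rw [prod_insert ha, prod_insert ha, Nat.totient_mul, Nat.totient_prime (h a (mem_insert_self _ _)),
        ih (fun l hl => h l (mem_insert_of_mem hl))]
      · push_cast
        rw [Nat.cast_sub (h a (mem_insert_self _ _)).one_le, Nat.cast_one]
      · apply Nat.Coprime.prod_right
        intro l hl
        rw [Nat.coprime_primes (h a (mem_insert_self _ _)) (h l (mem_insert_of_mem hl))]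
        rintro rfl
        exact ha hl
  rw [h2 I hI]
  exact_mod_cast h1

/-- the bound for the terms -/
lemma term_bound (hW : W.FG) (I : Finset ℕ) (hI : ∀ l ∈ I, l.Prime) :
    (cE F C (Lf QA W (∏ l ∈ I, ql k l)) : ℝ) /
      (Module.finrank ℚ (F ⊔ Lf QA W (∏ l ∈ I, ql k l) : IntermediateField ℚ QA) : ℝ) ≤
      (Nat.card Gal(F/ℚ) : ℝ) * ∏ l ∈ I, (1 / ((l : ℝ) - 1)) := by
  have h0 : 0 < ∏ l ∈ I, ql k l := Finset.prod_pos fun l hl => ql_pos k (hI l hl)
  have h1 := totient_le_sup F hW h0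
  have h2 := tot_prod k I hI
  have hpos : 0 < ∏ l ∈ I, ((l : ℝ) - 1) := Finset.prod_pos fun l hl => by
    have : (2 : ℝ) ≤ l := by exact_mod_cast (hI l hl).two_le
    linarith
  have h3 : ∏ l ∈ I, ((l : ℝ) - 1) ≤
      (Module.finrank ℚ (F ⊔ Lf QA W (∏ l ∈ I, ql k l) : IntermediateField ℚ QA) : ℝ) :=
    h2.trans (by exact_mod_cast h1)
  have h4 : (cE F C (Lf QA W (∏ l ∈ I, ql k l)) : ℝ) ≤ (Nat.card Gal(F/ℚ) : ℝ) := by
    exact_mod_cast cE_le F C _
  have e : ∏ l ∈ I, (1 / ((l : ℝ) - 1)) = 1 / ∏ l ∈ I, ((l : ℝ) - 1) := by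
    rw [prod_div_distrib, prod_const_one]
  rw [e, mul_one_div]
  exact div_le_div₀ (Nat.cast_nonneg _) h4 hpos h3

lemma gR_prod (R : Set ℕ) (I : Finset ℕ) (hI : ∀ l ∈ I, l.Prime ∧ l ∈ R) :
    gR F C W k R (∏ l ∈ I, l) = (-1 : ℝ) ^ #I * ((cE F C (Lf QA W (∏ l ∈ I, ql k l)) : ℝ) /
      (Module.finrank ℚ (F ⊔ Lf QA W (∏ l ∈ I, ql k l) : IntermediateField ℚ QA) : ℝ)) := by
  have h1 : (∏ l ∈ I, l).primeFactors = I := Nat.primeFactors_prod fun l hl => (hI l hl).1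
  have hsq : Squarefree (∏ l ∈ I, l) := Pool.Agent.H771R4.AQ.sqf_prod I fun l hl => (hI l hl).1
  have h2 : Qn k (∏ l ∈ I, l) = ∏ l ∈ I, ql k l := by
    unfold Qn
    rw [h1]
  unfold gR
  rw [if_pos (by rw [h1]; exact fun l hl => (hI l hl).2)]
  unfold bT
  rw [mu_eq_prod _ hsq, h1, Finset.prod_const, h2, mul_div_assoc]

open Classical in
/-- the set of the products -/
noncomputable def SR (R : Set ℕ) (y : ℕ) : Finset ℕ := (Ry R y).powerset.image (fun I => ∏ l ∈ I, l)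

lemma SR_inj (R : Set ℕ) (hR : ∀ l ∈ R, l.Prime) (y : ℕ) :
    Set.InjOn (fun I : Finset ℕ => ∏ l ∈ I, l) ((Ry R y).powerset : Set (Finset ℕ)) := by
  classical
  intro K hK K' hK' h
  rw [Finset.mem_coe, mem_powerset] at hK hK'
  have h1 : (∏ l ∈ K, l).primeFactors = K :=
    Nat.primeFactors_prod fun l hl => hR l (mem_Ry.1 (hK hl)).2
  have h2 : (∏ l ∈ K', l).primeFactors = K' :=
    Nat.primeFactors_prod fun l hl => hR l (mem_Ry.1 (hK' hl)).2
  rw [← h1, ← h2]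
  exact congrArg Nat.primeFactors h

lemma sum_SR (R : Set ℕ) (hR : ∀ l ∈ R, l.Prime) (y : ℕ) :
    ∑ n ∈ SR R y, gR F C W k R n = ∑ I ∈ (Ry R y).powerset,
      (-1 : ℝ) ^ #I * ((cE F C (Lf QA W (∏ l ∈ I, ql k l)) : ℝ) /
      (Module.finrank ℚ (F ⊔ Lf QA W (∏ l ∈ I, ql k l) : IntermediateField ℚ QA) : ℝ)) := by
  classical
  unfold SR
  rw [Finset.sum_image (SR_inj R hR y)]
  apply sum_congr rfl
  intro I hI
  rw [mem_powerset] at hI
  exact gR_prod F C W k R I fun l hl => ⟨hR l (mem_Ry.1 (hI hl)).2, (mem_Ry.1 (hI hl)).2⟩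

lemma gR_zero (R : Set ℕ) (y n : ℕ) (hn : n ≤ y) (h : n ∉ SR R y) :
    gR F C W k R n = 0 := by
  classical
  by_contra hne
  apply h
  have hR' : ∀ l ∈ n.primeFactors, l ∈ R := by
    by_contra hcon
    apply hne
    unfold gR
    rw [if_neg hcon]
  have hsq : Squarefree n := by
    by_contra hcon
    apply hne
    unfold gR bT
    rw [ArithmeticFunction.moebius_eq_zero_of_not_squarefree hcon]
    simp
  have hn0 : n ≠ 0 := hsq.ne_zero
  unfold SR
  rw [mem_image]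
  refine ⟨n.primeFactors, ?_, Nat.prod_primeFactors_of_squarefree hsq⟩
  rw [mem_powerset]
  intro l hl
  refine mem_Ry.2 ⟨?_, hR' l hl⟩
  exact (Nat.le_of_mem_primeFactors hl).trans hn

/-- absolute convergence -/
lemma gR_abs (hW : W.FG) (R : Set ℕ) (hR : ∀ l ∈ R, l.Prime) (y : ℕ) :
    ∑ n ∈ SR R y, |gR F C W k R n| ≤ (Nat.card Gal(F/ℚ) : ℝ) * ∏ l ∈ Ry R y, (1 + 1 / ((l : ℝ) - 1)) := by
  classical
  unfold SR
  rw [Finset.sum_image (SR_inj R hR y)]
  have h1 : ∀ I ∈ (Ry R y).powerset, |gR F C W k R (∏ l ∈ I, l)| ≤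
      (Nat.card Gal(F/ℚ) : ℝ) * ∏ l ∈ I, (1 / ((l : ℝ) - 1)) := by
    intro I hI
    rw [mem_powerset] at hI
    have hI' : ∀ l ∈ I, l.Prime ∧ l ∈ R := fun l hl => ⟨hR l (mem_Ry.1 (hI hl)).2, (mem_Ry.1 (hI hl)).2⟩
    rw [gR_prod F C W k R I hI', abs_mul, abs_pow, abs_neg, abs_one, one_pow, one_mul, abs_of_nonneg (by positivity)]
    exact term_bound F C W k hW I fun l hl => (hI' l hl).1
  refine (sum_le_sum h1).trans (le_of_eq ?_)
  rw [← mul_sum]
  congr 1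
  have h2 := Finset.prod_add (fun l : ℕ => 1 / ((l : ℝ) - 1)) (fun _ => (1 : ℝ)) (Ry R y)
  simp only [Finset.prod_const_one, mul_one] at h2
  rw [← h2]
  refine Finset.prod_congr rfl fun l _ => ?_
  ring

lemma prod_bound (R : Set ℕ) (hR : ∀ l ∈ R, l.Prime) (hsum : Summable (fun l : R => 1 / ((l : ℕ) : ℝ))) (y : ℕ) :
    ∏ l ∈ Ry R y, (1 + 1 / ((l : ℝ) - 1)) ≤ Real.exp (2 * ∑' l : R, 1 / ((l : ℕ) : ℝ)) := by
  classical
  have h1 : ∏ l ∈ Ry R y, (1 + 1 / ((l : ℝ) - 1)) ≤ ∏ l ∈ Ry R y, Real.exp (2 * (1 / (l : ℝ))) := by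
    apply Finset.prod_le_prod
    · intro l hl
      have : (2 : ℝ) ≤ l := by exact_mod_cast (hR l (mem_Ry.1 hl).2).two_le
      have : 0 < (l : ℝ) - 1 := by linarith
      positivity
    · intro l hl
      have h2 : (2 : ℝ) ≤ l := by exact_mod_cast (hR l (mem_Ry.1 hl).2).two_le
      have h3 : 1 / ((l : ℝ) - 1) ≤ 2 * (1 / (l : ℝ)) := by
        rw [mul_one_div, div_le_div_iff₀ (by linarith) (by linarith)]
        linarith
      have h4 := Real.add_one_le_exp (2 * (1 / (l : ℝ)))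
      linarith
  refine h1.trans ?_
  rw [← Real.exp_sum, ← mul_sum]
  apply Real.exp_le_exp.2
  apply mul_le_mul_of_nonneg_left _ (by norm_num)
  have h2 : Summable (R.indicator (fun l : ℕ => 1 / (l : ℝ))) := summable_subtype_iff_indicator.1 hsum
  have h3 := h2.sum_le_tsum (Ry R y) (fun l _ => Set.indicator_nonneg (fun _ _ => by positivity) l)
  rw [← tsum_subtype R (fun l : ℕ => 1 / (l : ℝ))] at h3
  refine le_trans (le_of_eq ?_) h3
  apply sum_congr rfl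
  intro l hl
  rw [Set.indicator_of_mem (mem_Ry.1 hl).2]

lemma gR_summable (hW : W.FG) (R : Set ℕ) (hR : ∀ l ∈ R, l.Prime)
    (hsum : Summable (fun l : R => 1 / ((l : ℕ) : ℝ))) : Summable (gR F C W k R) := by
  classical
  apply Summable.of_abs
  apply summable_of_sum_le (c := (Nat.card Gal(F/ℚ) : ℝ) * Real.exp (2 * ∑' l : R, 1 / ((l : ℕ) : ℝ)))
  · intro n
    exact abs_nonneg _
  · intro s
    obtain ⟨y, hy⟩ : ∃ y, y = s.sup id := ⟨_, rfl⟩
    have h1 : ∑ n ∈ s, |gR F C W k R n| ≤ ∑ n ∈ SR R y, |gR F C W k R n| := by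
      have h2 : ∑ n ∈ s, |gR F C W k R n| = ∑ n ∈ s.filter (fun n => n ∈ SR R y), |gR F C W k R n| := by
        symm
        apply sum_subset (filter_subset _ _)
        intro n hn hn2
        have h3 : n ∉ SR R y := fun h => hn2 (mem_filter.2 ⟨hn, h⟩)
        rw [gR_zero F C W k R y n (by rw [hy]; exact le_sup (f := id) hn) h3, abs_zero]
      rw [h2]
      apply sum_le_sum_of_subset_of_nonneg
      · intro n hn
        exact (mem_filter.1 hn).2
      · intro n _ _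
        exact abs_nonneg _
    refine h1.trans ((gR_abs F C W k hW R hR y).trans ?_)
    apply mul_le_mul_of_nonneg_left (prod_bound R hR hsum y) (Nat.cast_nonneg _)

lemma gR_tendsto (hW : W.FG) (R : Set ℕ) (hR : ∀ l ∈ R, l.Prime)
    (hsum : Summable (fun l : R => 1 / ((l : ℕ) : ℝ))) :
    Tendsto (fun y => ∑ n ∈ SR R y, gR F C W k R n) atTop (𝓝 (∑' n : ℕ, gR F C W k R n)) := by
  classical
  have h := (gR_summable F C W k hW R hR hsum).hasSum
  rw [Metric.tendsto_atTop]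
  intro ε hε
  have h1 := (Metric.tendsto_nhds.1 h) ε hε
  obtain ⟨s, hs⟩ := (Filter.eventually_atTop.1 h1)
  refine ⟨s.sup id, fun y hy => ?_⟩
  have h2 := hs (SR R y ∪ s) subset_union_right
  have h3 : ∑ n ∈ SR R y, gR F C W k R n = ∑ n ∈ SR R y ∪ s, gR F C W k R n := by
    refine Finset.sum_subset subset_union_left fun n hn hn2 => ?_
    rw [Finset.mem_union] at hn
    have hns : n ∈ s := hn.resolve_left hn2
    exact gR_zero F C W k R y n ((Finset.le_sup (f := id) hns).trans hy) hn2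
  rw [h3]
  exact h2

open Classical in
/-- **finitely many primes `l`** -/
theorem len_fin (hC : ∀ σ ∈ C, ∀ τ : Gal(F/ℚ), τ * σ * τ⁻¹ ∈ C) (hW : W.FG) (J : Finset ℕ) (hJ : ∀ l ∈ J, l.Prime) :
    Tendsto (M fun p => if (GF F C p ∧ UnW W p) ∧ ∀ l ∈ J, ¬ ql k l ∣ (Gp W p).index then 1 else 0) atTop
      (𝓝 (∑ I ∈ J.powerset, (-1 : ℝ) ^ #I * ((cE F C (Lf QA W (∏ l ∈ I, ql k l)) : ℝ) /
        (Module.finrank ℚ (F ⊔ Lf QA W (∏ l ∈ I, ql k l) : IntermediateField ℚ QA) : ℝ)))) := by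
  have h := avg_trunc F C W (⊥ : Subgroup ℚˣ) k J hC hW ⟨∅, by simp⟩ hJ 0
  have e0 : dLr F C W ⊥ k J 0 = ∑ I ∈ J.powerset, (-1 : ℝ) ^ #I * ((cE F C (Lf QA W (∏ l ∈ I, ql k l)) : ℝ) /
        (Module.finrank ℚ (F ⊔ Lf QA W (∏ l ∈ I, ql k l) : IntermediateField ℚ QA) : ℝ)) := by
    unfold dLr
    have hPP : PP 0 = ∅ := by
      ext l
      rw [mem_PP]
      simp only [notMem_empty, iff_false]
      rintro ⟨h1, h2⟩
      have := h2.pos
      omega
    rw [hPP]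
    have hset : (∅ : Finset ℕ).powerset.filter (fun K => Disjoint K J) = {∅} := by
      ext K
      simp only [powerset_empty, mem_filter, mem_singleton]
      constructor
      · exact fun h => h.1
      · rintro rfl
        exact ⟨rfl, disjoint_empty_left _⟩
    rw [hset, sum_singleton]
    simp only [card_empty, pow_zero, prod_empty, Nat.cast_one, div_one, one_mul]
    apply sum_congr rfl
    intro I _
    congr 1
    have e1 : Lf QA W (∏ l ∈ I, ql k l) ⊔ Lf QA (⊥ : Subgroup ℚˣ) (∏ l ∈ (∅ : Finset ℕ), ql k l) =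
        Lf QA W (∏ l ∈ I, ql k l) := by
      rw [Finset.prod_empty, Lf_bot_one, sup_bot_eq]
    exact congrArg (fun E : IntermediateField ℚ QA => (cE F C E : ℝ) /
      (Module.finrank ℚ (F ⊔ E : IntermediateField ℚ QA) : ℝ)) e1
  rw [e0] at h
  obtain ⟨D, hD, hU⟩ := exists_unW hW
  refine M_congr (D := D) hD ?_ h
  intro p hp hpD
  have : Fact p.Prime := ⟨hp⟩
  have hUp : UnW W p := hU p hpD
  have hempty : (Tp (⊥ : Subgroup ℚˣ) k J p).filter (fun l => l ≤ 0) = ∅ := by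
    rw [filter_eq_empty_iff]
    intro l hl h0
    have : l ∈ Sk k (p - 1) := by
      unfold Tp at hl
      exact (mem_filter.1 hl).1
    have := (Sk_prime this).pos
    omega
  rw [hempty]
  have hg : gT k ∅ = 1 := by unfold gT; simp
  rw [hg]
  have hiff : gd F C W k J p ↔ ((GF F C p ∧ UnW W p) ∧ ∀ l ∈ J, ¬ ql k l ∣ (Gp W p).index) := by
    unfold gd
    simp only [dvd_index_iff hUp]
    constructor
    · rintro ⟨h1, h2⟩
      exact ⟨⟨h1, hUp⟩, h2⟩
    · rintro ⟨⟨h1, _⟩, h2⟩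
      exact ⟨h1, h2⟩
  by_cases h1 : (GF F C p ∧ UnW W p) ∧ ∀ l ∈ J, ¬ ql k l ∣ (Gp W p).index
  · rw [if_pos h1, if_pos (hiff.2 h1)]
  · rw [if_neg h1, if_neg (fun h2 => h1 (hiff.1 h2))]

open Classical in
/-- **few primes for which the index is divisible by a large prime** -/
theorem large (r : ℕ) (hr : 1 ≤ r) (b : Fin r → ℚˣ) (hb : ∀ i, b i ∈ W)
    (hI : ∀ e : Fin r → ℤ, ∏ i, b i ^ e i = 1 → ∀ i, e i = 0) : ∃ Cst : ℝ, 0 ≤ Cst ∧ ∃ X₁ : ℕ, ∀ x : ℕ, X₁ ≤ x →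
      (((PP x).filter (fun p : ℕ => (GF F C p ∧ UnW W p) ∧ ∃ l : ℕ, l.Prime ∧ zr r x < l ∧
        l ∣ (Gp W p).index)).card : ℝ) ≤ Cst * ((x : ℝ) / Real.log x ^ 2) := by
  obtain ⟨H, hH⟩ : ∃ H : ℕ, H = 1 + ∑ i, (((b i : ℚˣ) : ℚ).num.natAbs + ((b i : ℚˣ) : ℚ).den) := ⟨_, rfl⟩
  have hHi : ∀ i, ((b i : ℚˣ) : ℚ).num.natAbs + ((b i : ℚˣ) : ℚ).den ≤ H := by
    intro i
    have := Finset.single_le_sum (f := fun i => ((b i : ℚˣ) : ℚ).num.natAbs + ((b i : ℚˣ) : ℚ).den)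
      (fun j _ => Nat.zero_le _) (mem_univ i)
    omega
  have hInd : Pool.Agent.Y855.Ind (fun i => ((b i : ℚˣ) : ℚ)) := by
    intro e he
    apply hI e
    apply Units.ext
    rw [Units.coe_prod, Units.val_one, ← he]
    apply prod_congr rfl
    intro i _
    rw [Units.val_zpow_eq_zpow_val]
  have hr1 : (1 : ℝ) ≤ r := by exact_mod_cast hr
  have hH1 : (1 : ℝ) ≤ H := by exact_mod_cast (by omega : 1 ≤ H)
  refine ⟨3 ^ r * (3 * r * H), by positivity, ?_⟩
  obtain ⟨ρ, hρ⟩ : ∃ ρ : ℝ, ρ = 1 / ((r : ℝ) + 1) := ⟨_, rfl⟩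
  have hρ0 : 0 < ρ := by rw [hρ]; positivity
  have hrρ : ((r : ℝ) + 1) * ρ = 1 := by rw [hρ]; field_simp
  have hev : ∀ᶠ x : ℝ in atTop, Real.log x ≤ x ^ ρ := by
    have h1 := (isLittleO_log_rpow_atTop hρ0).bound (show (0 : ℝ) < 1 by norm_num)
    filter_upwards [h1, eventually_ge_atTop (1 : ℝ)] with x hx hx1
    rw [Real.norm_of_nonneg (Real.log_nonneg hx1), Real.norm_of_nonneg (by positivity), one_mul] at hx
    exact hx
  obtain ⟨X, hX⟩ := eventually_atTop.1 ((tendsto_natCast_atTop_atTop (R := ℝ)).eventually hev)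
  refine ⟨max X 4, fun x hx => ?_⟩
  have hx4 : 4 ≤ x := (le_max_right _ _).trans hx
  have hlogx := hX x ((le_max_left _ _).trans hx)
  have hx4' : (4 : ℝ) ≤ x := by exact_mod_cast hx4
  have hx0 : (0 : ℝ) < x := by linarith
  have hlog1 : 1 ≤ Real.log x := by
    rw [Real.le_log_iff_exp_le hx0]
    linarith [Real.exp_one_lt_d9]
  have hlog0 : 0 < Real.log x := by linarith
  obtain ⟨u, hu⟩ : ∃ u : ℝ, u = (x : ℝ) ^ ρ / Real.log x := ⟨_, rfl⟩
  have hu1 : 1 ≤ u := by rw [hu, one_le_div hlog0]; exact hlogx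
  obtain ⟨N, hN⟩ : ∃ N : ℕ, N = ⌊u⌋₊ := ⟨_, rfl⟩
  have hNu : (N : ℝ) ≤ u := by rw [hN]; exact Nat.floor_le (by linarith)
  have huN : u < (N : ℝ) + 1 := by rw [hN]; exact Nat.lt_floor_add_one u
  have hN1 : 1 ≤ N := by rw [hN]; exact Nat.le_floor (by exact_mod_cast hu1)
  have hN1' : (1 : ℝ) ≤ N := by exact_mod_cast hN1
  obtain ⟨B, hB1, hB2⟩ := Pool.Agent.Y855.gm_rat (fun i => ((b i : ℚˣ) : ℚ).num)
    (fun i => (((b i : ℚˣ) : ℚ).den : ℤ)) H (by omega)
    (fun i => by have := hHi i; omega) (fun i => by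
      have := hHi i
      rw [Int.natAbs_natCast]
      omega)
    (fun v hv => Pool.Agent.Y855.Mr_ne (fun i => (b i).ne_zero) hInd hv) N
  have hxr : (x : ℝ) ^ ρ * ((x : ℝ) ^ ρ) ^ r = x := by
    rw [← Real.rpow_natCast, ← Real.rpow_mul hx0.le, ← Real.rpow_add hx0]
    rw [show ρ + ρ * (r : ℝ) = ((r : ℝ) + 1) * ρ by ring, hrρ, Real.rpow_one]
  have hsub : (PP x).filter (fun p : ℕ => (GF F C p ∧ UnW W p) ∧ ∃ l : ℕ, l.Prime ∧ zr r x < l ∧
        l ∣ (Gp W p).index) ⊆ B := by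
    intro p hp
    rw [mem_filter] at hp
    obtain ⟨hp1, ⟨-, hU⟩, l, hl, hlz, hidx⟩ := hp
    have hpp := (mem_PP.1 hp1).2
    have hpx := (mem_PP.1 hp1).1
    have : Fact p.Prime := ⟨hpp⟩
    rw [dvd_index_iff hU] at hidx
    have hp1' : 0 < p - 1 := by have := hpp.two_le; omega
    refine hB2 p hpp ?_ ?_ ((p - 1) / l)
      (Nat.div_pos (Nat.le_of_dvd hp1' hidx.1) hl.pos) ?_ ?_
    · intro i h
      exact (hU (b i) (hb i)).1 ((ZMod.intCast_zmod_eq_zero_iff_dvd _ _).2 h)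
    · intro i h
      exact (hU (b i) (hb i)).2 ((ZMod.natCast_eq_zero_iff _ _).2 (Int.natCast_dvd_natCast.1 h))
    · have hl0 : (0 : ℝ) < l := by exact_mod_cast hl.pos
      have h1 : (x : ℝ) ^ ρ * Real.log x ^ r < l := by
        have h2 : zr r x < l := hlz
        unfold zr at h2
        rw [← hρ] at h2
        exact (Nat.floor_lt (by positivity)).1 h2
      have h2 : (((p - 1) / l : ℕ) : ℝ) ≤ ((p - 1 : ℕ) : ℝ) / l := Nat.cast_div_le
      have h3 : ((p - 1 : ℕ) : ℝ) ≤ x := by exact_mod_cast (by omega : p - 1 ≤ x)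
      have h4 : ((p - 1 : ℕ) : ℝ) / l < u ^ r := by
        rw [div_lt_iff₀ hl0]
        calc ((p - 1 : ℕ) : ℝ) ≤ x := h3
          _ = u ^ r * ((x : ℝ) ^ ρ * Real.log x ^ r) := by
              rw [hu, div_pow]
              have : Real.log x ^ r ≠ 0 := by positivity
              field_simp
              exact hxr.symm
          _ < u ^ r * l := mul_lt_mul_of_pos_left h1 (by positivity)
      have h5 : (((p - 1) / l : ℕ) : ℝ) < (((N + 1) ^ r : ℕ) : ℝ) := by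
        push_cast
        calc (((p - 1) / l : ℕ) : ℝ) < u ^ r := lt_of_le_of_lt h2 h4
          _ ≤ ((N : ℝ) + 1) ^ r := pow_le_pow_left₀ (by linarith) huN.le r
      exact_mod_cast h5
    · intro i
      have h1 := hidx.2 (b i) (hb i)
      have hd := (hU (b i) (hb i)).2
      unfold rd at h1
      rw [mul_pow, inv_pow, mul_inv_eq_one₀ (pow_ne_zero _ hd)] at h1
      rw [h1]
      push_cast
      rfl
  have h1 : (((PP x).filter (fun p : ℕ => (GF F C p ∧ UnW W p) ∧ ∃ l : ℕ, l.Prime ∧ zr r x < l ∧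
        l ∣ (Gp W p).index)).card : ℝ) ≤ ((2 * N + 1) ^ r * (2 * r * N * H + 1) : ℕ) := by
    exact_mod_cast (card_le_card hsub).trans hB1
  refine h1.trans ?_
  push_cast
  have h2 : (2 * (N : ℝ) + 1) ^ r ≤ 3 ^ r * u ^ r := by
    rw [← mul_pow]
    apply pow_le_pow_left₀ (by positivity)
    linarith
  have h3 : (2 * r * N * H + 1 : ℝ) ≤ 3 * r * H * u := by
    have h4 : (1 : ℝ) ≤ r * H * N := by
      have h5 : (1 : ℝ) ≤ r * H := by nlinarith
      nlinarith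
    have h6 : (r : ℝ) * H * N ≤ r * H * u := mul_le_mul_of_nonneg_left hNu (by positivity)
    nlinarith
  have h7 : u ^ r * u ≤ (x : ℝ) / Real.log x ^ 2 := by
    have h8 : u ^ r * u = x / Real.log x ^ (r + 1) := by
      rw [← pow_succ, hu, div_pow, pow_succ ((x : ℝ) ^ ρ), mul_comm (((x : ℝ) ^ ρ) ^ r), hxr]
    rw [h8]
    apply div_le_div_of_nonneg_left hx0.le (by positivity)
    exact pow_le_pow_right₀ hlog1 (by omega)
  calc (2 * (N : ℝ) + 1) ^ r * (2 * r * N * H + 1) ≤ (3 ^ r * u ^ r) * (3 * r * H * u) :=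
        mul_le_mul h2 h3 (by positivity) (by positivity)
    _ = 3 ^ r * (3 * r * H) * (u ^ r * u) := by ring
    _ ≤ _ := mul_le_mul_of_nonneg_left h7 (by positivity)

open Classical in
/-- **the theorem** -/
theorem thin (hC : ∀ σ ∈ C, ∀ τ : Gal(F/ℚ), τ * σ * τ⁻¹ ∈ C) (hW : W.FG) (r : ℕ) (hr : 1 ≤ r) (b : Fin r → ℚˣ)
    (hb : ∀ i, b i ∈ W) (hI : ∀ e : Fin r → ℤ, ∏ i, b i ^ e i = 1 → ∀ i, e i = 0)
    (R : Set ℕ) (hR : ∀ l ∈ R, l.Prime) (hsum : Summable (fun l : R => 1 / ((l : ℕ) : ℝ)))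
    (η : ℕ → ℝ) (hη : Tendsto η atTop (𝓝 0)) :
    Tendsto (fun x : ℕ => (((PP x).filter (fun p : ℕ => (GF F C p ∧ UnW W p) ∧
      ∀ l : ℕ, l.Prime → (l ∈ R ∨ (p : ℝ) ^ (1 / ((r : ℝ) + 1) - η p) ≤ l) → ¬ ql k l ∣ (Gp W p).index)).card : ℝ) /
      (Nat.primeCounting x : ℝ)) atTop (𝓝 (∑' n : ℕ, gR F C W k R n)) := by
  obtain ⟨Cst, -, X₁, hlarge⟩ := large F C W r hr b hb hI
  have key := main r hr (fun p => GF F C p ∧ UnW W p) (fun p => (Gp W p).index) (ql k) Cst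
    (fun l => by unfold ql; exact dvd_pow_self l (by omega))
    (fun p l hp _ hl => hl.trans (index_dvd W hp))
    (by
      refine ⟨X₁, fun x hx => ?_⟩
      convert hlarge x hx)
    R hR hsum η hη
    (fun y => ∑ n ∈ SR R y, gR F C W k R n) _ (gR_tendsto F C W k hW R hR hsum)
    (by
      intro y
      have h := len_fin F C W k hC hW (Ry R y) (fun l hl => hR l (mem_Ry.1 hl).2)
      rw [← sum_SR F C W k R hR y] at h
      refine h.congr fun x => ?_
      rw [M_eq, ← sum_filter, sum_const, nsmul_eq_mul, mul_one]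
      congr!)
  convert key

end

end Pool.Agent.T6.H1.Lz
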