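import Pool.Agent.T6.H1.Lz.FamMain
import Pool.Agent.T6.H1.Lz.ThinLen

/-! # Families of groups: Lenstra's condition with a bounded number of exceptions -/

set_option autoImplicit false
set_option linter.unusedSectionVars false

namespace Pool.Agent.T6.H1.Lz

open NumberField Filter Topology Finset IntermediateField
open Pool.Agent.W401.Cheb
open Pool.Agent.W171.LG
open Pool.Agent.H386R2.Artin (PP LC_pos)
open Pool.Agent.H981R3.LN (ql Sk mem_Sk mem_PP Sk_prime Qn Qn_dvd Qn_pos)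
open Pool.Agent.T6.H1.Th (Ry mem_Ry)

open Classical in
/-- **few primes for which the index is divisible by a large prime** -/
theorem large0 (W : Subgroup ℚˣ) (r : ℕ) (hr : 1 ≤ r) (b : Fin r → ℚˣ) (hb : ∀ i, b i ∈ W)
    (hI : ∀ e : Fin r → ℤ, ∏ i, b i ^ e i = 1 → ∀ i, e i = 0) : ∃ Cst : ℝ, 0 ≤ Cst ∧ ∀ᶠ x : ℕ in atTop,
      (((PP x).filter (fun p : ℕ => UnW W p ∧ ∃ l : ℕ, l.Prime ∧ zr r x < l ∧
        l ∣ (Gp W p).index)).card : ℝ) ≤ Cst * ((x : ℝ) / Real.log x ^ 2) := by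
  obtain ⟨H, hH⟩ : ∃ H : ℕ, H = 1 + ∑ i, (((b i : ℚˣ) : ℚ).num.natAbs + ((b i : ℚˣ) : ℚ).den) := ⟨_, rfl⟩
  have hHi : ∀ i, ((b i : ℚˣ) : ℚ).num.natAbs + ((b i : ℚˣ) : ℚ).den ≤ H := by
    intro i
    have := Finset.single_le_sum (f := fun i => ((b i : ℚˣ) : ℚ).num.natAbs + ((b i : ℚˣ) : ℚ).den)
      (fun j _ => Nat.zero_le _) (mem_univ i)
    omega
  have hInd : Pool.Agent.Y855.Ind (fun i => ((b i : ℚˣ) : ℚ)) := by
    intro e he
    apply hI e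
    apply Units.ext
    rw [Units.coe_prod, Units.val_one, ← he]
    apply prod_congr rfl
    intro i _
    rw [Units.val_zpow_eq_zpow_val]
  have hr1 : (1 : ℝ) ≤ r := by exact_mod_cast hr
  have hH1 : (1 : ℝ) ≤ H := by exact_mod_cast (by omega : 1 ≤ H)
  refine ⟨3 ^ r * (3 * r * H), by positivity, ?_⟩
  obtain ⟨ρ, hρ⟩ : ∃ ρ : ℝ, ρ = 1 / ((r : ℝ) + 1) := ⟨_, rfl⟩
  have hρ0 : 0 < ρ := by rw [hρ]; positivity
  have hrρ : ((r : ℝ) + 1) * ρ = 1 := by rw [hρ]; field_simp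
  have hev : ∀ᶠ x : ℝ in atTop, Real.log x ≤ x ^ ρ := by
    have h1 := (isLittleO_log_rpow_atTop hρ0).bound (show (0 : ℝ) < 1 by norm_num)
    filter_upwards [h1, eventually_ge_atTop (1 : ℝ)] with x hx hx1
    rw [Real.norm_of_nonneg (Real.log_nonneg hx1), Real.norm_of_nonneg (by positivity), one_mul] at hx
    exact hx
  filter_upwards [(tendsto_natCast_atTop_atTop (R := ℝ)).eventually hev, eventually_ge_atTop 4] with x hlogx hx4
  have hx4' : (4 : ℝ) ≤ x := by exact_mod_cast hx4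
  have hx0 : (0 : ℝ) < x := by linarith
  have hlog1 : 1 ≤ Real.log x := by
    rw [Real.le_log_iff_exp_le hx0]
    linarith [Real.exp_one_lt_d9]
  have hlog0 : 0 < Real.log x := by linarith
  obtain ⟨u, hu⟩ : ∃ u : ℝ, u = (x : ℝ) ^ ρ / Real.log x := ⟨_, rfl⟩
  have hu1 : 1 ≤ u := by rw [hu, one_le_div hlog0]; exact hlogx
  obtain ⟨N, hN⟩ : ∃ N : ℕ, N = ⌊u⌋₊ := ⟨_, rfl⟩
  have hNu : (N : ℝ) ≤ u := by rw [hN]; exact Nat.floor_le (by linarith)
  have huN : u < (N : ℝ) + 1 := by rw [hN]; exact Nat.lt_floor_add_one u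
  have hN1 : 1 ≤ N := by rw [hN]; exact Nat.le_floor (by exact_mod_cast hu1)
  have hN1' : (1 : ℝ) ≤ N := by exact_mod_cast hN1
  obtain ⟨B, hB1, hB2⟩ := Pool.Agent.Y855.gm_rat (fun i => ((b i : ℚˣ) : ℚ).num)
    (fun i => (((b i : ℚˣ) : ℚ).den : ℤ)) H (by omega)
    (fun i => by have := hHi i; omega) (fun i => by
      have := hHi i
      rw [Int.natAbs_natCast]
      omega)
    (fun v hv => Pool.Agent.Y855.Mr_ne (fun i => (b i).ne_zero) hInd hv) N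
  have hxr : (x : ℝ) ^ ρ * ((x : ℝ) ^ ρ) ^ r = x := by
    rw [← Real.rpow_natCast, ← Real.rpow_mul hx0.le, ← Real.rpow_add hx0]
    rw [show ρ + ρ * (r : ℝ) = ((r : ℝ) + 1) * ρ by ring, hrρ, Real.rpow_one]
  have hsub : (PP x).filter (fun p : ℕ => UnW W p ∧ ∃ l : ℕ, l.Prime ∧ zr r x < l ∧
        l ∣ (Gp W p).index) ⊆ B := by
    intro p hp
    rw [mem_filter] at hp
    obtain ⟨hp1, hU, l, hl, hlz, hidx⟩ := hp
    have hpp := (mem_PP.1 hp1).2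
    have hpx := (mem_PP.1 hp1).1
    have : Fact p.Prime := ⟨hpp⟩
    rw [dvd_index_iff hU] at hidx
    have hp1' : 0 < p - 1 := by have := hpp.two_le; omega
    refine hB2 p hpp ?_ ?_ ((p - 1) / l)
      (Nat.div_pos (Nat.le_of_dvd hp1' hidx.1) hl.pos) ?_ ?_
    · intro i h
      exact (hU (b i) (hb i)).1 ((ZMod.intCast_zmod_eq_zero_iff_dvd _ _).2 h)
    · intro i h
      exact (hU (b i) (hb i)).2 ((ZMod.natCast_eq_zero_iff _ _).2 (Int.natCast_dvd_natCast.1 h))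
    · have hl0 : (0 : ℝ) < l := by exact_mod_cast hl.pos
      have h1 : (x : ℝ) ^ ρ * Real.log x ^ r < l := by
        have h2 : zr r x < l := hlz
        unfold zr at h2
        rw [← hρ] at h2
        exact (Nat.floor_lt (by positivity)).1 h2
      have h2 : (((p - 1) / l : ℕ) : ℝ) ≤ ((p - 1 : ℕ) : ℝ) / l := Nat.cast_div_le
      have h3 : ((p - 1 : ℕ) : ℝ) ≤ x := by exact_mod_cast (by omega : p - 1 ≤ x)
      have h4 : ((p - 1 : ℕ) : ℝ) / l < u ^ r := by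
        rw [div_lt_iff₀ hl0]
        calc ((p - 1 : ℕ) : ℝ) ≤ x := h3
          _ = u ^ r * ((x : ℝ) ^ ρ * Real.log x ^ r) := by
              rw [hu, div_pow]
              have : Real.log x ^ r ≠ 0 := by positivity
              field_simp
              exact hxr.symm
          _ < u ^ r * l := mul_lt_mul_of_pos_left h1 (by positivity)
      have h5 : (((p - 1) / l : ℕ) : ℝ) < (((N + 1) ^ r : ℕ) : ℝ) := by
        push_cast
        calc (((p - 1) / l : ℕ) : ℝ) < u ^ r := lt_of_le_of_lt h2 h4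
          _ ≤ ((N : ℝ) + 1) ^ r := pow_le_pow_left₀ (by linarith) huN.le r
      exact_mod_cast h5
    · intro i
      have h1 := hidx.2 (b i) (hb i)
      have hd := (hU (b i) (hb i)).2
      unfold rd at h1
      rw [mul_pow, inv_pow, mul_inv_eq_one₀ (pow_ne_zero _ hd)] at h1
      rw [h1]
      push_cast
      rfl
  have h1 : (((PP x).filter (fun p : ℕ => UnW W p ∧ ∃ l : ℕ, l.Prime ∧ zr r x < l ∧
        l ∣ (Gp W p).index)).card : ℝ) ≤ ((2 * N + 1) ^ r * (2 * r * N * H + 1) : ℕ) := by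
    exact_mod_cast (card_le_card hsub).trans hB1
  refine h1.trans ?_
  push_cast
  have h2 : (2 * (N : ℝ) + 1) ^ r ≤ 3 ^ r * u ^ r := by
    rw [← mul_pow]
    apply pow_le_pow_left₀ (by positivity)
    linarith
  have h3 : (2 * r * N * H + 1 : ℝ) ≤ 3 * r * H * u := by
    have h4 : (1 : ℝ) ≤ r * H * N := by
      have h5 : (1 : ℝ) ≤ r * H := by nlinarith
      nlinarith
    have h6 : (r : ℝ) * H * N ≤ r * H * u := mul_le_mul_of_nonneg_left hNu (by positivity)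
    nlinarith
  have h7 : u ^ r * u ≤ (x : ℝ) / Real.log x ^ 2 := by
    have h8 : u ^ r * u = x / Real.log x ^ (r + 1) := by
      rw [← pow_succ, hu, div_pow, pow_succ ((x : ℝ) ^ ρ), mul_comm (((x : ℝ) ^ ρ) ^ r), hxr]
    rw [h8]
    apply div_le_div_of_nonneg_left hx0.le (by positivity)
    exact pow_le_pow_right₀ hlog1 (by omega)
  calc (2 * (N : ℝ) + 1) ^ r * (2 * r * N * H + 1) ≤ (3 ^ r * u ^ r) * (3 * r * H * u) :=
        mul_le_mul h2 h3 (by positivity) (by positivity)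
    _ = 3 ^ r * (3 * r * H) * (u ^ r * u) := by ring
    _ ≤ _ := mul_le_mul_of_nonneg_left h7 (by positivity)

/-- the rank of `W` is at least `r` -/
def RkGE (r : ℕ) (W : Subgroup ℚˣ) : Prop :=
  ∃ b : Fin r → ℚˣ, (∀ j, b j ∈ W) ∧ ∀ e : Fin r → ℤ, ∏ j, b j ^ e j = 1 → ∀ j, e j = 0

section
variable {ι : Type} (W : ι → Subgroup ℚˣ)

/-- the group generated by the groups with an index in `J` -/
def gen (J : Finset ι) : Subgroup ℚˣ := Subgroup.closure (⋃ i ∈ J, (W i : Set ℚˣ))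

lemma gen_unW {J : Finset ι} {p : ℕ} [Fact p.Prime] (h : ∀ i ∈ J, UnW (W i) p) : UnW (gen W J) p := by
  apply unW_closure
  intro w hw
  simp only [Set.mem_iUnion, SetLike.mem_coe] at hw
  obtain ⟨i, hi, hw⟩ := hw
  exact h i hi w hw

lemma gen_dvd {J : Finset ι} (hJ : J.Nonempty) {p l : ℕ} [Fact p.Prime] (h : ∀ i ∈ J, UnW (W i) p)
    (hl : ∀ i ∈ J, l ∣ (Gp (W i) p).index) : l ∣ (Gp (gen W J) p).index := by
  rw [dvd_index_iff (gen_unW W h)]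
  unfold gen
  rw [PW_closure]
  · obtain ⟨i₀, hi₀⟩ := hJ
    have h0 := (dvd_index_iff (h i₀ hi₀) l).1 (hl i₀ hi₀)
    refine ⟨h0.1, fun w hw => ?_⟩
    simp only [Set.mem_iUnion, SetLike.mem_coe] at hw
    obtain ⟨i, hi, hw⟩ := hw
    exact ((dvd_index_iff (h i hi) l).1 (hl i hi)).2 w hw
  · intro w hw
    simp only [Set.mem_iUnion, SetLike.mem_coe] at hw
    obtain ⟨i, hi, hw⟩ := hw
    exact h i hi w hw

open Classical in
/-- the exceptional primes of the family -/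
lemma excep [Fintype ι] (u ρ : ℕ) (hρ : 1 ≤ ρ) (G : ι → ℕ → Prop) (hGU : ∀ i p, G i p → UnW (W i) p)
    (hrank : ∀ J : Finset ι, 1 ≤ #J → #J ≤ u → RkGE (ρ * #J) (gen W J)) :
    ∃ C : ℝ, ∀ᶠ x : ℕ in atTop, (#((PP x).filter (fun p => ∃ j l : ℕ, 1 ≤ j ∧ j ≤ u ∧ l.Prime ∧ zr (ρ * j) x < l ∧
        j ≤ #(univ.filter (fun i => G i p ∧ l ∣ (Gp (W i) p).index)))) : ℝ) ≤ C * ((x : ℝ) / Real.log x ^ 2) := by
  have h1 : ∀ J : Finset ι, ∃ C : ℝ, 0 ≤ C ∧ (1 ≤ #J → #J ≤ u → ∀ᶠ x : ℕ in atTop,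
      (((PP x).filter (fun p : ℕ => UnW (gen W J) p ∧ ∃ l : ℕ, l.Prime ∧ zr (ρ * #J) x < l ∧
        l ∣ (Gp (gen W J) p).index)).card : ℝ) ≤ C * ((x : ℝ) / Real.log x ^ 2)) := by
    intro J
    by_cases h : 1 ≤ #J ∧ #J ≤ u
    · obtain ⟨b, hb, hI⟩ := hrank J h.1 h.2
      obtain ⟨C, hC0, hC⟩ := large0 (gen W J) (ρ * #J) (Nat.mul_pos hρ h.1) b hb hI
      exact ⟨C, hC0, fun _ _ => hC⟩
    · exact ⟨0, le_rfl, fun h2 h3 => absurd ⟨h2, h3⟩ h⟩
  choose C hC0 hC using h1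
  obtain ⟨S, hS⟩ : ∃ S : Finset (Finset ι), S = univ.filter (fun J => 1 ≤ #J ∧ #J ≤ u) := ⟨_, rfl⟩
  have h2 : ∀ᶠ x : ℕ in atTop, ∀ J ∈ S, (((PP x).filter (fun p : ℕ => UnW (gen W J) p ∧ ∃ l : ℕ, l.Prime ∧
      zr (ρ * #J) x < l ∧ l ∣ (Gp (gen W J) p).index)).card : ℝ) ≤ C J * ((x : ℝ) / Real.log x ^ 2) := by
    rw [eventually_all_finset]
    intro J hJ
    rw [hS, mem_filter] at hJ
    exact hC J hJ.2.1 hJ.2.2
  refine ⟨∑ J ∈ S, C J, ?_⟩
  filter_upwards [h2] with x hx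
  have hsub : (PP x).filter (fun p => ∃ j l : ℕ, 1 ≤ j ∧ j ≤ u ∧ l.Prime ∧ zr (ρ * j) x < l ∧
      j ≤ #(univ.filter (fun i => G i p ∧ l ∣ (Gp (W i) p).index))) ⊆
      S.biUnion (fun J => (PP x).filter (fun p : ℕ => UnW (gen W J) p ∧ ∃ l : ℕ, l.Prime ∧
      zr (ρ * #J) x < l ∧ l ∣ (Gp (gen W J) p).index)) := by
    intro p hp
    rw [mem_filter] at hp
    obtain ⟨hp1, j, l, hj1, hju, hl, hlz, hjc⟩ := hp
    have : Fact p.Prime := ⟨(mem_PP.1 hp1).2⟩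
    obtain ⟨J, hJ, hJc⟩ := Finset.exists_subset_card_eq hjc
    rw [mem_biUnion]
    have hJi : ∀ i ∈ J, UnW (W i) p ∧ l ∣ (Gp (W i) p).index := by
      intro i hi
      have := (mem_filter.1 (hJ hi)).2
      exact ⟨hGU i p this.1, this.2⟩
    have hJne : J.Nonempty := by
      rw [← card_pos]
      omega
    refine ⟨J, ?_, ?_⟩
    · rw [hS, mem_filter]
      exact ⟨mem_univ _, by omega, by omega⟩
    · rw [mem_filter]
      exact ⟨hp1, gen_unW W fun i hi => (hJi i hi).1, l, hl, by rw [hJc]; exact hlz,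
        gen_dvd W hJne (fun i hi => (hJi i hi).1) (fun i hi => (hJi i hi).2)⟩
  have h3 := (card_le_card hsub).trans card_biUnion_le
  have h4 : (#((PP x).filter (fun p => ∃ j l : ℕ, 1 ≤ j ∧ j ≤ u ∧ l.Prime ∧ zr (ρ * j) x < l ∧
      j ≤ #(univ.filter (fun i => G i p ∧ l ∣ (Gp (W i) p).index)))) : ℝ) ≤
      ∑ J ∈ S, (((PP x).filter (fun p : ℕ => UnW (gen W J) p ∧ ∃ l : ℕ, l.Prime ∧
      zr (ρ * #J) x < l ∧ l ∣ (Gp (gen W J) p).index)).card : ℝ) := by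
    exact_mod_cast h3
  refine h4.trans ?_
  rw [sum_mul]
  exact sum_le_sum hx

end

open Classical in
/-- **Lenstra's condition for families** -/
theorem fam_len (ι : Type) [Fintype ι] (F : ι → IntermediateField ℚ QA) [∀ i, NumberField (F i)]
    [∀ i, IsGalois ℚ (F i)] (C : (i : ι) → Set Gal(F i/ℚ)) (W : ι → Subgroup ℚˣ) (k : ι → ℕ)
    (hC : ∀ i, ∀ σ ∈ C i, ∀ τ : Gal(F i/ℚ), τ * σ * τ⁻¹ ∈ C i) (hW : ∀ i, (W i).FG)
    (u ρ : ℕ) (hu : 1 ≤ u) (hρ : 1 ≤ ρ)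
    (hrank : ∀ J : Finset ι, 1 ≤ #J → #J ≤ u → RkGE (ρ * #J) (gen W J))
    (R : Set ℕ) (hR : ∀ l ∈ R, l.Prime) (hsum : Summable (fun l : R => 1 / ((l : ℕ) : ℝ)))
    (η : ℕ → ℝ) (hη : Tendsto η atTop (𝓝 0)) (ε : ℝ) (hε : 0 < ε) (hε1 : ε ≤ 1) :
    ∀ᶠ x : ℕ in atTop,
      (∀ i, (((PP x).filter (fun p : ℕ => (GF (F i) (C i) p ∧ UnW (W i) p) ∧
        ∀ l : ℕ, l.Prime → (l ∈ R ∨ (p : ℝ) ^ (1 / (((ρ * u : ℕ) : ℝ) + 1) - η p) ≤ l) →
          ¬ ql (k i) l ∣ (Gp (W i) p).index)).card : ℝ) ≤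
        (∑' n : ℕ, gR (F i) (C i) (W i) (k i) R n + ε) * (Nat.primeCounting x : ℝ)) ∧
      (#(univ.filter (fun i => (((PP x).filter (fun p : ℕ => (GF (F i) (C i) p ∧ UnW (W i) p) ∧
        ∀ l : ℕ, l.Prime → (l ∈ R ∨ (p : ℝ) ^ (1 / (((ρ * u : ℕ) : ℝ) + 1) - η p) ≤ l) →
          ¬ ql (k i) l ∣ (Gp (W i) p).index)).card : ℝ) <
        (∑' n : ℕ, gR (F i) (C i) (W i) (k i) R n - ε) * (Nat.primeCounting x : ℝ))) : ℝ) ≤
        3000 * ((u : ℝ) - 1) / ε := by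
  obtain ⟨Cst, hCst⟩ := excep W u ρ hρ (fun i p => GF (F i) (C i) p ∧ UnW (W i) p) (fun i p h => h.2) hrank
  have key := fam ι u ρ hu hρ (fun i p => GF (F i) (C i) p ∧ UnW (W i) p) (fun i p => (Gp (W i) p).index)
    (fun i => ql (k i)) Cst
    (fun i l => by unfold ql; exact dvd_pow_self l (by omega))
    (fun i p l hp _ hl => hl.trans (index_dvd (W i) hp))
    (by
      filter_upwards [hCst] with x hx
      convert hx)
    R hR hsum η hη
    (fun i y => ∑ n ∈ SR R y, gR (F i) (C i) (W i) (k i) R n) (fun i => ∑' n : ℕ, gR (F i) (C i) (W i) (k i) R n)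
    (fun i => gR_tendsto (F i) (C i) (W i) (k i) (hW i) R hR hsum)
    (by
      intro i y
      have h := len_fin (F i) (C i) (W i) (k i) (hC i) (hW i) (Ry R y) (fun l hl => hR l (mem_Ry.1 hl).2)
      rw [← sum_SR (F i) (C i) (W i) (k i) R hR y] at h
      refine h.congr fun x => ?_
      rw [M_eq, ← sum_filter, sum_const, nsmul_eq_mul, mul_one]
      congr!) ε hε hε1
  filter_upwards [key] with x hx
  convert hx

end Pool.Agent.T6.H1.Lz
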