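import Pool.Agent.T6.H1.Lz.Gen
import Pool.Agent.TH893.JO.Len

/-! # Lenstra's condition in arbitrary sets of primes, for arbitrary sets of bases -/

set_option autoImplicit false
set_option linter.unusedSectionVars false

namespace Pool.Agent.T6.H1.Lz

open Finset NumberField Filter
open Pool.Agent.R459.Eq (mean Per)
open Pool.Agent.T6.H1.Ar (Cnd L_ge)
open Pool.Agent.T6.H1.Pm (sum_inv)
open Pool.Agent.TH890.AS (dens dens_eq)
open Pool.Agent.W171.LG (QA QR LC_iffR Un rd UnW PW GF rd_ne unW_iff un_iff IdxC LC DR gp_eqR rd_mul un_mul un_inv)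
open Pool.Agent.H981R3.LN (ql Sk mem_Sk Sk_dvd Sk_prime)

section
variable (F : IntermediateField ℚ QA) [NumberField F] [IsGalois ℚ F] (C : Set Gal(F/ℚ))
  (W0 : Subgroup ℚˣ) (k : ℕ) (D : ℚˣ) (r : ℕ)

open Classical in
/-- the indicator function of the condition -/
noncomputable def fQ (p : ℕ) (n : ℤ) : ℝ := if QR F C W0 k D r p (n : ZMod p) then 1 else 0

lemma fQ_mem (p : ℕ) (n : ℤ) : 0 ≤ fQ F C W0 k D r p n ∧ fQ F C W0 k D r p n ≤ 1 := by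
  unfold fQ
  split_ifs <;> norm_num

lemma fQ_per (p : ℕ) : Per p (fQ F C W0 k D r p) := by
  intro m n h
  unfold fQ
  have e : ((m : ℤ) : ZMod p) = ((n : ℤ) : ZMod p) := by
    rw [← sub_eq_zero, ← Int.cast_sub]
    exact (ZMod.intCast_zmod_eq_zero_iff_dvd _ p).2 h
  rw [e]

lemma rep_fQ (hr : r ≠ 0) (p : ℕ) (hp : p.Prime) :
    @Sm.Rep p ⟨hp⟩ (fQ F C W0 k D r p) ((p - 1).divisors.card : ℝ) := by
  have : Fact p.Prime := ⟨hp⟩
  obtain ⟨c, h1, h2⟩ := Pool.Agent.TH893.JO.rep_QR (p := p) F C W0 k D r hr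
  refine ⟨c, fun n _ => ?_, h1⟩
  rw [← h2 (n : ZMod p)]
  unfold fQ
  by_cases h : QR F C W0 k D r p (n : ZMod p)
  · simp only [if_pos h, Complex.ofReal_one]
  · simp only [if_neg h, Complex.ofReal_zero]

lemma mean_fQ {p : ℕ} (hp : p.Prime) :
    |mean p (fQ F C W0 k D r p) - dens p (QR F C W0 k D r p)| ≤ 1 / p := by
  classical
  have : Fact p.Prime := ⟨hp⟩
  have : NeZero p := ⟨hp.ne_zero⟩
  rw [dens_eq]
  obtain ⟨A, hA⟩ : ∃ A, A = #((univ : Finset (ZMod p)).filter (QR F C W0 k D r p)) := ⟨_, rfl⟩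
  have e1 : ∑ t ∈ range p, fQ F C W0 k D r p t = (A : ℝ) := by
    rw [hA, card_filter]
    push_cast
    symm
    apply sum_bij (fun (a : ZMod p) _ => a.val)
    · intro a _
      rw [mem_range]
      exact ZMod.val_lt a
    · intro a _ b _ h
      exact ZMod.val_injective p h
    · intro b hb
      rw [mem_range] at hb
      exact ⟨(b : ZMod p), mem_univ _, by rw [ZMod.val_natCast, Nat.mod_eq_of_lt hb]⟩
    · intro a _
      unfold fQ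
      rw [Int.cast_natCast, ZMod.natCast_zmod_val]
  have hp2 := hp.two_le
  have h1 : A ≤ p - 1 := by
    rw [hA]
    have h2 : (univ : Finset (ZMod p)).filter (QR F C W0 k D r p) ⊆ univ.erase 0 := by
      intro a ha
      rw [mem_filter] at ha
      rw [mem_erase]
      exact ⟨ha.2.2.2.2.1, mem_univ _⟩
    have h3 := card_le_card h2
    rwa [card_erase_of_mem (mem_univ _), card_univ, ZMod.card] at h3
  unfold mean
  rw [e1, ← hA]
  have hp0 : (0 : ℝ) < p := by exact_mod_cast hp.pos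
  have hp1 : ((p - 1 : ℕ) : ℝ) = (p : ℝ) - 1 := by
    rw [Nat.cast_sub hp.one_le, Nat.cast_one]
  have hp3 : (0 : ℝ) < (p : ℝ) - 1 := by
    have : (2 : ℝ) ≤ p := by exact_mod_cast hp2
    linarith
  have hA1 : (A : ℝ) ≤ (p : ℝ) - 1 := by
    rw [← hp1]
    exact_mod_cast h1
  rw [hp1]
  have e2 : (A : ℝ) / p - A / ((p : ℝ) - 1) = -(A / ((p : ℝ) - 1) * (1 / p)) := by
    field_simp
    ring
  rw [e2, abs_neg, abs_of_nonneg (by positivity)]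
  have h4 : (A : ℝ) / ((p : ℝ) - 1) ≤ 1 := by
    rw [div_le_one hp3]
    exact hA1
  calc (A : ℝ) / ((p : ℝ) - 1) * (1 / p) ≤ 1 * (1 / p) := mul_le_mul_of_nonneg_right h4 (by positivity)
    _ = 1 / p := one_mul _

/-- the unit `-1` to the power `r` -/
lemma un_sgn (p : ℕ) [Fact p.Prime] : Un p (((-1 : ℚˣ) ^ r : ℚˣ) : ℚ) := by
  rw [un_iff (Units.ne_zero _)]
  rcases neg_one_pow_eq_or ℚˣ r with h | h <;> rw [h] <;> simp

lemma rd_sgn (p : ℕ) [Fact p.Prime] : rd p (((-1 : ℚˣ) ^ r : ℚˣ) : ℚ) = (-1 : ZMod p) ^ r := by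
  rcases Nat.even_or_odd r with h | h
  · rw [h.neg_one_pow, h.neg_one_pow]
    unfold rd
    simp
  · rw [h.neg_one_pow, h.neg_one_pow]
    unfold rd
    simp

/-- **the condition for an integer** -/
lemma LC_iffZ (hk : k ≠ 0) (hr : r ≠ 0) {p : ℕ} (hp : p.Prime) (hD : padicValRat p (D : ℚ) = 0) {m : ℤ}
    (hm : m ≠ 0) :
    LC F C k (W0 ⊔ Subgroup.closure {w : ℚˣ | (w : ℚ) = (D : ℚ) * (m : ℚ) ^ r}) p ↔
      QR F C W0 k D r p (m : ZMod p) := by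
  have : Fact p.Prime := ⟨hp⟩
  have hD' : Un p (D : ℚ) := (un_iff D.ne_zero).2 hD
  rcases Int.natAbs_eq m with h | h
  · have hn0 : m.natAbs ≠ 0 := Int.natAbs_ne_zero.2 hm
    obtain ⟨n, hn⟩ : ∃ n, n = m.natAbs := ⟨_, rfl⟩
    rw [← hn] at h hn0
    rw [h, Int.cast_natCast, Int.cast_natCast, gp_eqR W0 D r hn0]
    exact LC_iffR F C W0 k D r hk hr hp hD' hn0
  · have hn0 : m.natAbs ≠ 0 := Int.natAbs_ne_zero.2 hm
    obtain ⟨n, hn⟩ : ∃ n, n = m.natAbs := ⟨_, rfl⟩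
    rw [← hn] at h hn0
    rw [h]
    have e1 : {w : ℚˣ | (w : ℚ) = (D : ℚ) * (((-(n : ℤ)) : ℤ) : ℚ) ^ r} =
        {w : ℚˣ | (w : ℚ) = ((D * (-1) ^ r : ℚˣ) : ℚ) * (n : ℚ) ^ r} := by
      ext w
      simp only [Set.mem_ofPred_eq]
      have e2 : (D : ℚ) * (((-(n : ℤ)) : ℤ) : ℚ) ^ r = ((D * (-1) ^ r : ℚˣ) : ℚ) * (n : ℚ) ^ r := by
        push_cast
        rw [mul_assoc, ← mul_pow]
        ring
      rw [e2]
    rw [e1, gp_eqR W0 (D * (-1) ^ r) r hn0]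
    have hs := un_sgn r p
    have hU : Un p ((D * (-1) ^ r : ℚˣ) : ℚ) := by
      rw [Units.val_mul]
      exact un_mul hD' hs
    rw [LC_iffR F C W0 k (D * (-1) ^ r) r hk hr hp hU hn0]
    have e3 : rd p ((D * (-1) ^ r : ℚˣ) : ℚ) = rd p (D : ℚ) * (-1) ^ r := by
      rw [Units.val_mul, rd_mul hD' hs (by rw [← Units.val_mul]; exact hU), rd_sgn]
    unfold QR
    rw [e3]
    have e4 : ((n : ℕ) : ZMod p) ≠ 0 ↔ (((-(n : ℤ) : ℤ)) : ZMod p) ≠ 0 := by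
      push_cast
      rw [neg_ne_zero]
    have e5 : rd p (D : ℚ) * (-1) ^ r * ((n : ℕ) : ZMod p) ^ r =
        rd p (D : ℚ) * (((-(n : ℤ) : ℤ)) : ZMod p) ^ r := by
      push_cast
      rw [mul_assoc, ← mul_pow]
      ring
    rw [e5]
    constructor
    · rintro ⟨h1, h2, h3, h4, h5⟩
      exact ⟨h1, h2, hD', e4.1 h4, h5⟩
    · rintro ⟨h1, h2, h3, h4, h5⟩
      exact ⟨h1, h2, hU, e4.2 h4, h5⟩

open Classical in
/-- the number of the primes in a set, as a sum -/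
lemma count_eq (hk : k ≠ 0) (hr : r ≠ 0) (S : Finset ℕ) (hS : ∀ p ∈ S, p.Prime)
    (hD : ∀ p ∈ S, padicValRat p (D : ℚ) = 0) {m : ℤ} (hm : m ≠ 0) :
    (#(S.filter (fun p => LC F C k
      (W0 ⊔ Subgroup.closure {w : ℚˣ | (w : ℚ) = (D : ℚ) * (m : ℚ) ^ r}) p)) : ℝ) =
      ∑ p ∈ S, fQ F C W0 k D r p m := by
  rw [card_filter]
  push_cast
  apply sum_congr rfl
  intro p hp
  unfold fQ
  rw [if_congr (LC_iffZ F C W0 k D r hk hr (hS p hp) (hD p hp) hm) rfl rfl]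

/-- the sum of the means and the sum of the densities -/
lemma mean_dens (S : Finset ℕ) (x : ℕ) (hS : ∀ p ∈ S, p.Prime ∧ p ≤ x) :
    |∑ p ∈ S, mean p (fQ F C W0 k D r p) - ∑ p ∈ S, dens p (QR F C W0 k D r p)| ≤ 1 + Real.log x := by
  rw [← sum_sub_distrib]
  refine (abs_sum_le_sum_abs _ _).trans ?_
  refine (sum_le_sum fun p hp => mean_fQ F C W0 k D r (hS p hp).1).trans ?_
  have h := sum_inv S x hS
  have e : ∑ p ∈ S, (2 : ℝ) / p = 2 * ∑ p ∈ S, (1 : ℝ) / p := by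
    rw [mul_sum]
    apply sum_congr rfl
    intro p _
    ring
  rw [e] at h
  linarith

end

open Classical in
/-- **Lenstra's condition for sums and shifted products** -/
theorem len_sums (η : ℝ) (hη : 0 < η) : ∃ X : ℕ, 4 ≤ X ∧ ∀ (x N : ℕ) (S : Finset ℕ) (U V : Finset ℤ),
    X ≤ x → Cnd η x N 1 S U V →
    ∀ (F : IntermediateField ℚ QA) [NumberField F] [IsGalois ℚ F] (C : Set Gal(F/ℚ))
      (W0 : Subgroup ℚˣ) (k : ℕ) (D : ℚˣ) (r : ℕ), k ≠ 0 → r ≠ 0 →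
      (∀ p ∈ S, padicValRat p (D : ℚ) = 0) →
      ((#((U ×ˢ V).filter (fun z => z.1 + z.2 ≠ 0 ∧ (x : ℝ) ^ (-(η / 8)) * #S <
        |(#(S.filter (fun p => LC F C k
          (W0 ⊔ Subgroup.closure {w : ℚˣ | (w : ℚ) = (D : ℚ) * ((z.1 + z.2 : ℤ) : ℚ) ^ r}) p)) : ℝ) -
          ∑ p ∈ S, dens p (QR F C W0 k D r p)|)) : ℝ) ≤ (x : ℝ) ^ (-(η / 8)) * (#U * #V)) ∧
      ∀ c : ℤ, c ≠ 0 → |c| ≤ N → 0 ∉ U → 0 ∉ V →
      ((#((U ×ˢ V).filter (fun z => z.1 * z.2 + c ≠ 0 ∧ (x : ℝ) ^ (-(η / 8)) * #S <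
        |(#(S.filter (fun p => LC F C k
          (W0 ⊔ Subgroup.closure {w : ℚˣ | (w : ℚ) = (D : ℚ) * ((z.1 * z.2 + c : ℤ) : ℚ) ^ r}) p)) : ℝ) -
          ∑ p ∈ S, dens p (QR F C W0 k D r p)|)) : ℝ) ≤ (x : ℝ) ^ (-(η / 8)) * (#U * #V)) := by
  obtain ⟨X1, hX1, h1⟩ := sums η hη
  obtain ⟨X2, hX2, h2⟩ := prods η hη
  obtain ⟨X3, hX3, h3⟩ := Lsum3 η hη
  refine ⟨max X1 (max X2 X3), hX1.trans (le_max_left _ _), ?_⟩
  intro x N S U V hx hC F _ _ C W0 k D r hk hr hD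
  have a1 : X1 ≤ x := (le_max_left _ _).trans hx
  have a2 : X2 ≤ x := (le_max_left _ _).trans ((le_max_right _ _).trans hx)
  have a3 : X3 ≤ x := (le_max_right _ _).trans ((le_max_right _ _).trans hx)
  have hL := L_ge N hC.hN
  have hS : ∀ p ∈ S, p.Prime := fun p hp => (hC.hP p hp).1
  have hS' : ∀ p ∈ S, p.Prime ∧ p ≤ x := fun p hp => ⟨(hC.hP p hp).1, (hC.hP p hp).2.1⟩
  have herr := h3 x (Real.log (2 * N)) (#S) a3 hL hC.hQ
  have hmd := mean_dens F C W0 k D r S x hS'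
  have hx1 : (1 : ℝ) ≤ x := by exact_mod_cast (by omega : 1 ≤ x)
  have hlog : 0 ≤ Real.log x := Real.log_nonneg hx1
  rw [abs_le] at hmd
  refine ⟨?_, ?_⟩
  · refine le_trans ?_ (h1 x N (fQ F C W0 k D r) S U V a1 (fQ_mem F C W0 k D r) (fQ_per F C W0 k D r)
      (fun p hp _ => rep_fQ F C W0 k D r hr p hp) hC)
    have hsub : (U ×ˢ V).filter (fun z => z.1 + z.2 ≠ 0 ∧ (x : ℝ) ^ (-(η / 8)) * #S <
        |(#(S.filter (fun p => LC F C k
          (W0 ⊔ Subgroup.closure {w : ℚˣ | (w : ℚ) = (D : ℚ) * ((z.1 + z.2 : ℤ) : ℚ) ^ r}) p)) : ℝ) -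
          ∑ p ∈ S, dens p (QR F C W0 k D r p)|) ⊆
        (U ×ˢ V).filter (fun z => (x : ℝ) ^ (-(η / 8)) * #S / 2 <
          |∑ p ∈ S, (fQ F C W0 k D r p (z.1 + z.2) - mean p (fQ F C W0 k D r p))|) := by
      intro z hz
      rw [mem_filter] at hz ⊢
      refine ⟨hz.1, ?_⟩
      obtain ⟨hz0, hz1⟩ := hz.2
      rw [count_eq F C W0 k D r hk hr S hS hD hz0] at hz1
      rw [sum_sub_distrib]
      obtain ⟨a, ha⟩ : ∃ a, a = ∑ p ∈ S, fQ F C W0 k D r p (z.1 + z.2) := ⟨_, rfl⟩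
      obtain ⟨b, hb⟩ : ∃ b, b = ∑ p ∈ S, mean p (fQ F C W0 k D r p) := ⟨_, rfl⟩
      obtain ⟨d, hd⟩ : ∃ d, d = ∑ p ∈ S, dens p (QR F C W0 k D r p) := ⟨_, rfl⟩
      rw [← ha, ← hd] at hz1
      rw [← hb, ← hd] at hmd
      rw [← ha, ← hb]
      have h4 : |a - d| ≤ |a - b| + |b - d| := abs_sub_le a b d
      have h5 : |b - d| ≤ 1 + Real.log x := abs_le.2 hmd
      linarith
    exact_mod_cast card_le_card hsub
  · intro c hc hcN hU0 hV0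
    refine le_trans ?_ (h2 x N (fQ F C W0 k D r) S U V c a2 (fQ_mem F C W0 k D r) (fQ_per F C W0 k D r)
      (fun p hp _ => rep_fQ F C W0 k D r hr p hp) hC hc hcN hU0 hV0)
    have hsub : (U ×ˢ V).filter (fun z => z.1 * z.2 + c ≠ 0 ∧ (x : ℝ) ^ (-(η / 8)) * #S <
        |(#(S.filter (fun p => LC F C k
          (W0 ⊔ Subgroup.closure {w : ℚˣ | (w : ℚ) = (D : ℚ) * ((z.1 * z.2 + c : ℤ) : ℚ) ^ r}) p)) : ℝ) -
          ∑ p ∈ S, dens p (QR F C W0 k D r p)|) ⊆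
        (U ×ˢ V).filter (fun z => (x : ℝ) ^ (-(η / 8)) * #S / 2 + 2 * (1 + Real.log x) + 6 * Real.log (2 * N) <
          |∑ p ∈ S, fQ F C W0 k D r p (z.1 * z.2 + c) - ∑ p ∈ S, mean p (fQ F C W0 k D r p)|) := by
      intro z hz
      rw [mem_filter] at hz ⊢
      refine ⟨hz.1, ?_⟩
      obtain ⟨hz0, hz1⟩ := hz.2
      rw [count_eq F C W0 k D r hk hr S hS hD hz0] at hz1
      obtain ⟨a, ha⟩ : ∃ a, a = ∑ p ∈ S, fQ F C W0 k D r p (z.1 * z.2 + c) := ⟨_, rfl⟩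
      obtain ⟨b, hb⟩ : ∃ b, b = ∑ p ∈ S, mean p (fQ F C W0 k D r p) := ⟨_, rfl⟩
      obtain ⟨d, hd⟩ : ∃ d, d = ∑ p ∈ S, dens p (QR F C W0 k D r p) := ⟨_, rfl⟩
      rw [← ha, ← hd] at hz1
      rw [← hb, ← hd] at hmd
      rw [← ha, ← hb]
      have h4 : |a - d| ≤ |a - b| + |b - d| := abs_sub_le a b d
      have h5 : |b - d| ≤ 1 + Real.log x := abs_le.2 hmd
      linarith
    exact_mod_cast card_le_card hsub

end Pool.Agent.T6.H1.Lz
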