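import Pool.Agent.T6.H1.Th.Main

/-! # Primes whose index is divisible by no prime of a thin set and by no large prime: the general argument -/

set_option autoImplicit false

namespace Pool.Agent.T6.H1.Lz

open Filter Topology Finset
open Pool.Agent.H386R2.Artin (PP)
open Pool.Agent.H730R2.AA (ox_cheb)
open Pool.Agent.T6.H1.Th (Ry mem_Ry mem_PP' bt1 thin_tail)

/-- the upper end of the range of the primes `l` for which the sieve is used -/
noncomputable def zr (r x : ℕ) : ℕ := ⌊(x : ℝ) ^ (1 / ((r : ℝ) + 1)) * Real.log x ^ r⌋₊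

lemma pow_log (r : ℕ) (a δ : ℝ) (ha : 0 ≤ a) (hδ : 0 < δ) :
    ∀ᶠ x : ℝ in atTop, a * Real.log x ^ r ≤ x ^ δ := by
  have h2 := isLittleO_log_rpow_rpow_atTop (r : ℝ) hδ
  have h3 := h2.bound (c := 1 / (a + 1)) (by positivity)
  filter_upwards [h3, eventually_ge_atTop (1 : ℝ)] with x hx hx1
  rw [Real.rpow_natCast, Real.norm_of_nonneg (pow_nonneg (Real.log_nonneg hx1) _),
    Real.norm_of_nonneg (by positivity)] at hx
  have h4 : 0 ≤ Real.log x ^ r := pow_nonneg (Real.log_nonneg hx1) _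
  have h5 : (a + 1) * Real.log x ^ r ≤ x ^ δ := by
    calc (a + 1) * Real.log x ^ r ≤ (a + 1) * (1 / (a + 1) * x ^ δ) :=
          mul_le_mul_of_nonneg_left hx (by positivity)
      _ = x ^ δ := by field_simp
  linarith

/-- the sum of the reciprocals of the primes between `x ^ (ρ - 2 δ)` and `x ^ ρ (log x) ^ r`, `ρ = 1 / (r + 1)` -/
lemma big_primes (r : ℕ) (hr : 1 ≤ r) (δ : ℝ) (hδ : 0 < δ) (hδ1 : δ ≤ 1 / (8 * ((r : ℝ) + 1))) :
    ∃ X : ℕ, ∀ x : ℕ, X ≤ x → ∀ S : Finset ℕ,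
      (∀ l ∈ S, l.Prime ∧ l ≤ zr r x ∧ (x : ℝ) ^ (1 / ((r : ℝ) + 1) - 2 * δ : ℝ) ≤ l) →
      ∑ l ∈ S, 1 / (l : ℝ) ≤ 20 * ((r : ℝ) + 1) * δ := by
  obtain ⟨ρ, hρ⟩ : ∃ ρ : ℝ, ρ = 1 / ((r : ℝ) + 1) := ⟨_, rfl⟩
  have hr1 : (1 : ℝ) ≤ r := by exact_mod_cast hr
  have hρ0 : 0 < ρ := by rw [hρ]; positivity
  have hρ1 : ρ ≤ 1 / 2 := by
    rw [hρ]
    apply one_div_le_one_div_of_le (by norm_num)
    linarith
  have hrρ : ((r : ℝ) + 1) * ρ = 1 := by rw [hρ]; field_simp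
  have hδρ : 8 * δ ≤ ρ := by
    have h1 : 1 / (8 * ((r : ℝ) + 1)) = ρ / 8 := by rw [hρ]; field_simp
    rw [h1] at hδ1
    linarith
  rw [← hρ]
  obtain ⟨M, hM⟩ := Pool.Agent.H305R2.mertens_inv_tendsto
  rw [Metric.tendsto_atTop] at hM
  obtain ⟨N₁, hN₁⟩ := hM (δ / 2) (by positivity)
  -- the two ends
  have hev1 : ∀ᶠ x : ℝ in atTop, (N₁ : ℝ) + 3 ≤ x ^ (ρ - 3 * δ : ℝ) :=
    (tendsto_rpow_atTop (by linarith)).eventually_ge_atTop _
  have hev2 : ∀ᶠ x : ℝ in atTop, 1 * Real.log x ^ r ≤ x ^ δ := pow_log r 1 δ (by norm_num) hδ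
  have hev3 : ∀ᶠ x : ℝ in atTop, Real.log 2 ≤ δ * Real.log x :=
    (Real.tendsto_log_atTop.const_mul_atTop hδ).eventually_ge_atTop _
  obtain ⟨X, hX⟩ := eventually_atTop.1 ((tendsto_natCast_atTop_atTop (R := ℝ)).eventually
    ((hev1.and hev2).and (hev3.and (eventually_ge_atTop (4 : ℝ)))))
  refine ⟨X, fun x hx S hS => ?_⟩
  obtain ⟨⟨h1, h2⟩, h3, h4⟩ := hX x hx
  rw [one_mul] at h2
  have hx0 : (0 : ℝ) < x := by linarith
  have hx1 : (1 : ℝ) < x := by linarith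
  have hlog : 0 < Real.log x := Real.log_pos hx1
  have hlog1 : 1 ≤ Real.log x := by
    rw [Real.le_log_iff_exp_le hx0]
    linarith [Real.exp_one_lt_d9]
  have hlogr : 1 ≤ Real.log x ^ r := one_le_pow₀ hlog1
  obtain ⟨a, ha⟩ : ∃ a : ℕ, a = ⌊(x : ℝ) ^ (ρ - 3 * δ : ℝ)⌋₊ := ⟨_, rfl⟩
  have ha1 : (a : ℝ) ≤ (x : ℝ) ^ (ρ - 3 * δ : ℝ) := by
    rw [ha]
    exact Nat.floor_le (by positivity)
  have ha2 : (x : ℝ) ^ (ρ - 3 * δ : ℝ) < a + 1 := by
    rw [ha]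
    exact Nat.lt_floor_add_one _
  have haN : N₁ + 2 ≤ a := by
    rw [ha]
    apply Nat.le_floor
    push_cast
    linarith
  have ha0 : (2 : ℝ) ≤ a := by exact_mod_cast (by omega : 2 ≤ a)
  have haz : a ≤ zr r x := by
    unfold zr
    rw [← hρ]
    apply Nat.le_floor
    refine ha1.trans ?_
    have h5 : (x : ℝ) ^ (ρ - 3 * δ : ℝ) ≤ (x : ℝ) ^ ρ := by
      apply Real.rpow_le_rpow_of_exponent_le hx1.le
      linarith
    calc (x : ℝ) ^ (ρ - 3 * δ : ℝ) ≤ (x : ℝ) ^ ρ * 1 := by rw [mul_one]; exact h5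
      _ ≤ _ := mul_le_mul_of_nonneg_left hlogr (by positivity)
  have hzN : N₁ ≤ zr r x := by omega
  have hlx : ∀ l ∈ S, l ∈ ((Icc 1 (zr r x)).filter Nat.Prime) \ ((Icc 1 a).filter Nat.Prime) := by
    intro l hl
    obtain ⟨h5, h6, h7⟩ := hS l hl
    rw [Finset.mem_sdiff, mem_filter, mem_filter, mem_Icc, mem_Icc]
    refine ⟨⟨⟨h5.one_le, h6⟩, h5⟩, ?_⟩
    rintro ⟨⟨_, h8⟩, _⟩
    have h9 : (l : ℝ) ≤ a := by exact_mod_cast h8
    have h10 : (x : ℝ) ^ (ρ - 3 * δ : ℝ) < (x : ℝ) ^ (ρ - 2 * δ : ℝ) :=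
      Real.rpow_lt_rpow_of_exponent_lt hx1 (by linarith)
    linarith
  have hsub : (Icc 1 a).filter Nat.Prime ⊆ (Icc 1 (zr r x)).filter Nat.Prime := by
    intro l hl
    rw [mem_filter, mem_Icc] at hl ⊢
    exact ⟨⟨hl.1.1, hl.1.2.trans haz⟩, hl.2⟩
  have h5 : ∑ l ∈ S, 1 / (l : ℝ) ≤ ∑ l ∈ ((Icc 1 (zr r x)).filter Nat.Prime) \ ((Icc 1 a).filter Nat.Prime), 1 / (l : ℝ) :=
    sum_le_sum_of_subset_of_nonneg hlx fun _ _ _ => by positivity
  have h6 := sum_sdiff hsub (f := fun l : ℕ => (1 : ℝ) / l)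
  have h7 := hN₁ (zr r x) hzN
  have h8 := hN₁ a (by omega)
  rw [Real.dist_eq, abs_lt] at h7 h8
  -- the double logarithms
  have hloga : (ρ - 4 * δ) * Real.log x ≤ Real.log a := by
    have h9 : (x : ℝ) ^ (ρ - 3 * δ : ℝ) ≤ 2 * a := by linarith
    have h10 := Real.log_le_log (by positivity) h9
    rw [Real.log_rpow hx0, Real.log_mul (by norm_num) (by linarith)] at h10
    linarith
  have hlogz : Real.log (zr r x) ≤ (ρ + δ) * Real.log x := by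
    have h9 : (zr r x : ℝ) ≤ (x : ℝ) ^ ρ * Real.log x ^ r := by
      unfold zr
      rw [← hρ]
      exact Nat.floor_le (by positivity)
    have hz0 : (0 : ℝ) < zr r x := by
      have : (a : ℝ) ≤ zr r x := by exact_mod_cast haz
      linarith
    have h10 : (zr r x : ℝ) ≤ (x : ℝ) ^ (ρ + δ : ℝ) := by
      refine h9.trans ?_
      rw [Real.rpow_add hx0]
      exact mul_le_mul_of_nonneg_left h2 (by positivity)
    have h11 := Real.log_le_log hz0 h10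
    rwa [Real.log_rpow hx0] at h11
  have hρδ : 0 < ρ - 4 * δ := by linarith
  have hla : (ρ / 2) * Real.log x ≤ Real.log a := by
    refine le_trans ?_ hloga
    apply mul_le_mul_of_nonneg_right _ hlog.le
    linarith
  have hla0 : 0 < Real.log a := lt_of_lt_of_le (by positivity) hla
  have hlz0 : 0 < Real.log (zr r x) := by
    have h9 : (a : ℝ) ≤ zr r x := by exact_mod_cast haz
    exact lt_of_lt_of_le hla0 (Real.log_le_log (by linarith) h9)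
  have hll : Real.log (Real.log (zr r x)) - Real.log (Real.log a) ≤ 10 * ((r : ℝ) + 1) * δ := by
    rw [← Real.log_div hlz0.ne' hla0.ne']
    have h9 : Real.log (zr r x) / Real.log a ≤ 1 + 10 * ((r : ℝ) + 1) * δ := by
      rw [div_le_iff₀ hla0]
      calc Real.log (zr r x) ≤ (ρ + δ) * Real.log x := hlogz
        _ ≤ (1 + 10 * ((r : ℝ) + 1) * δ) * ((ρ - 4 * δ) * Real.log x) := by
            have h12 : (ρ + δ) ≤ (1 + 10 * ((r : ℝ) + 1) * δ) * (ρ - 4 * δ) := by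
              have e1 : (1 + 10 * ((r : ℝ) + 1) * δ) * (ρ - 4 * δ) =
                  ρ - 4 * δ + 10 * δ * (((r : ℝ) + 1) * ρ) - 40 * ((r : ℝ) + 1) * δ * δ := by ring
              rw [e1, hrρ]
              have e2 : 40 * ((r : ℝ) + 1) * δ * δ ≤ 5 * δ := by
                have h13 : 8 * ((r : ℝ) + 1) * δ ≤ 1 := by
                  have := mul_le_mul_of_nonneg_left hδρ (show (0 : ℝ) ≤ (r : ℝ) + 1 by linarith)
                  rw [hrρ] at this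
                  linarith
                nlinarith
              linarith
            calc (ρ + δ) * Real.log x ≤ ((1 + 10 * ((r : ℝ) + 1) * δ) * (ρ - 4 * δ)) * Real.log x :=
                  mul_le_mul_of_nonneg_right h12 hlog.le
              _ = _ := by ring
        _ ≤ (1 + 10 * ((r : ℝ) + 1) * δ) * Real.log a := mul_le_mul_of_nonneg_left hloga (by positivity)
    have h10 : 0 < Real.log (zr r x) / Real.log a := by positivity
    have h11 := Real.log_le_sub_one_of_pos h10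
    linarith
  have h12 : δ ≤ ((r : ℝ) + 1) * δ := by nlinarith
  linarith [h7.2, h8.1]

open Classical in
/-- **the tail** -/
theorem tail (r : ℕ) (hr : 1 ≤ r) : ∃ X : ℕ, 4 ≤ X ∧ ∀ x : ℕ, X ≤ x → ∀ (G : ℕ → Prop) (idx : ℕ → ℕ) (C : ℝ),
    (∀ p l : ℕ, p.Prime → G p → l ∣ idx p → l ∣ p - 1) →
    (((PP x).filter (fun p : ℕ => G p ∧ ∃ l : ℕ, l.Prime ∧ zr r x < l ∧ l ∣ idx p)).card : ℝ) ≤
      C * ((x : ℝ) / Real.log x ^ 2) →
    ∀ Q : ℕ → Prop,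
    (((PP x).filter (fun p : ℕ => G p ∧ ∃ l : ℕ, l.Prime ∧ Q l ∧ l ∣ idx p)).card : ℝ) ≤
      352 * ((x : ℝ) / Real.log x) * ∑ l ∈ (PP (zr r x)).filter Q, (1 / (l : ℝ)) +
      C * ((x : ℝ) / Real.log x ^ 2) := by
  have hr1 : (1 : ℝ) ≤ r := by exact_mod_cast hr
  obtain ⟨X, hX⟩ := eventually_atTop.1 ((tendsto_natCast_atTop_atTop (R := ℝ)).eventually
    (pow_log r 1 (1 / 4) (by norm_num) (by norm_num)))
  refine ⟨max X 4, le_max_right _ _, fun x hx G idx C hG hC Q => ?_⟩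
  have hx4 : 4 ≤ x := (le_max_right _ _).trans hx
  have hlogx := hX x ((le_max_left _ _).trans hx)
  rw [one_mul] at hlogx
  have hx4' : (4 : ℝ) ≤ x := by exact_mod_cast hx4
  have hx0 : (0 : ℝ) < x := by linarith
  have hcov : (PP x).filter (fun p : ℕ => G p ∧ ∃ l : ℕ, l.Prime ∧ Q l ∧ l ∣ idx p) ⊆
      (PP x).filter (fun p : ℕ => G p ∧ ∃ l : ℕ, l.Prime ∧ zr r x < l ∧ l ∣ idx p) ∪
        ((PP (zr r x)).filter Q).biUnion (fun l => (PP x).filter (fun p => l ∣ p - 1)) := by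
    intro p hp
    rw [mem_filter] at hp
    obtain ⟨hp1, hpG, l, hl, hQ, hidx⟩ := hp
    have hpp := (mem_PP'.1 hp1).2
    rw [mem_union]
    by_cases hlz : l ≤ zr r x
    · right
      rw [mem_biUnion]
      exact ⟨l, mem_filter.2 ⟨mem_PP'.2 ⟨hlz, hl⟩, hQ⟩, mem_filter.2 ⟨hp1, hG p l hpp hpG hidx⟩⟩
    · left
      rw [mem_filter]
      exact ⟨hp1, hpG, l, hl, not_le.1 hlz, hidx⟩
  have hc2 : ∀ l ∈ (PP (zr r x)).filter Q, (((PP x).filter (fun p => l ∣ p - 1)).card : ℝ) ≤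
      352 * ((x : ℝ) / Real.log x) * (1 / (l : ℝ)) := by
    intro l hl
    rw [mem_filter, mem_PP'] at hl
    have hlp := hl.1.2
    have hl0 : (0 : ℝ) < l := by exact_mod_cast hlp.pos
    have h1 : (l : ℝ) ≤ (x : ℝ) ^ (1 / 2 : ℝ) * Real.log x ^ r := by
      have h2 : (l : ℝ) ≤ (zr r x : ℝ) := by exact_mod_cast hl.1.1
      have hlog0 : 0 ≤ Real.log x := Real.log_nonneg (by linarith)
      refine h2.trans ((Nat.floor_le (by positivity)).trans ?_)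
      apply mul_le_mul_of_nonneg_right _ (by positivity)
      apply Real.rpow_le_rpow_of_exponent_le (by linarith)
      apply one_div_le_one_div_of_le (by norm_num)
      linarith
    have h2 : (l : ℝ) * (x : ℝ) ^ (1 / 4 : ℝ) ≤ x := by
      calc (l : ℝ) * (x : ℝ) ^ (1 / 4 : ℝ) ≤ (x : ℝ) ^ (1 / 2 : ℝ) * Real.log x ^ r * (x : ℝ) ^ (1 / 4 : ℝ) :=
            mul_le_mul_of_nonneg_right h1 (by positivity)
        _ ≤ (x : ℝ) ^ (1 / 2 : ℝ) * (x : ℝ) ^ (1 / 4 : ℝ) * (x : ℝ) ^ (1 / 4 : ℝ) := by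
            apply mul_le_mul_of_nonneg_right _ (by positivity)
            exact mul_le_mul_of_nonneg_left hlogx (by positivity)
        _ = x := by
            rw [← Real.rpow_add hx0, ← Real.rpow_add hx0]
            norm_num
    have h3 : (1 : ℝ) ≤ (x : ℝ) ^ (1 / 4 : ℝ) := Real.one_le_rpow (by linarith) (by norm_num)
    apply bt1 x l hlp (by omega)
    · calc (l : ℝ) = l * 1 := (mul_one _).symm
        _ ≤ (l : ℝ) * (x : ℝ) ^ (1 / 4 : ℝ) := mul_le_mul_of_nonneg_left h3 hl0.le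
        _ ≤ x := h2
    · rw [le_div_iff₀ hl0, mul_comm]
      exact h2
  have h1 := (card_le_card hcov).trans (card_union_le _ _)
  have h2 : ((((PP (zr r x)).filter Q).biUnion (fun l => (PP x).filter (fun p => l ∣ p - 1))).card : ℝ) ≤
      ∑ l ∈ (PP (zr r x)).filter Q, (((PP x).filter (fun p => l ∣ p - 1)).card : ℝ) := by
    exact_mod_cast card_biUnion_le
  have h3 := h2.trans (sum_le_sum hc2)
  rw [← mul_sum] at h3
  have h4 : (((PP x).filter (fun p : ℕ => G p ∧ ∃ l : ℕ, l.Prime ∧ Q l ∧ l ∣ idx p)).card : ℝ) ≤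
      (((PP x).filter (fun p : ℕ => G p ∧ ∃ l : ℕ, l.Prime ∧ zr r x < l ∧ l ∣ idx p)).card : ℝ) +
      ((((PP (zr r x)).filter Q).biUnion (fun l => (PP x).filter (fun p => l ∣ p - 1))).card : ℝ) := by
    exact_mod_cast h1
  linarith

open Classical in
/-- **the general theorem** -/
theorem main (r : ℕ) (hr : 1 ≤ r) (G : ℕ → Prop) (idx : ℕ → ℕ) (q : ℕ → ℕ) (C : ℝ)
    (hq : ∀ l, l ∣ q l)
    (hG : ∀ p l : ℕ, p.Prime → G p → l ∣ idx p → l ∣ p - 1)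
    (hC : ∃ X₁ : ℕ, ∀ x : ℕ, X₁ ≤ x →
      (((PP x).filter (fun p : ℕ => G p ∧ ∃ l : ℕ, l.Prime ∧ zr r x < l ∧ l ∣ idx p)).card : ℝ) ≤
        C * ((x : ℝ) / Real.log x ^ 2))
    (R : Set ℕ) (hR : ∀ l ∈ R, l.Prime) (hsum : Summable (fun l : R => 1 / ((l : ℕ) : ℝ)))
    (η : ℕ → ℝ) (hη : Tendsto η atTop (𝓝 0)) (Ay : ℕ → ℝ) (A : ℝ) (hAlim : Tendsto Ay atTop (𝓝 A))
    (hfin : ∀ y : ℕ, Tendsto (fun x : ℕ => (((PP x).filter (fun p => G p ∧ ∀ l ∈ Ry R y, ¬ q l ∣ idx p)).card : ℝ) /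
      (Nat.primeCounting x : ℝ)) atTop (𝓝 (Ay y))) :
    Tendsto (fun x : ℕ => (((PP x).filter (fun p : ℕ => G p ∧
      ∀ l : ℕ, l.Prime → (l ∈ R ∨ (p : ℝ) ^ (1 / ((r : ℝ) + 1) - η p) ≤ l) → ¬ q l ∣ idx p)).card : ℝ) /
      (Nat.primeCounting x : ℝ)) atTop (𝓝 A) := by
  obtain ⟨ρ, hρ⟩ : ∃ ρ : ℝ, ρ = 1 / ((r : ℝ) + 1) := ⟨_, rfl⟩
  have hr1 : (1 : ℝ) ≤ r := by exact_mod_cast hr
  have hρ0 : 0 < ρ := by rw [hρ]; positivity
  have hρ1 : ρ ≤ 1 / 2 := by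
    rw [hρ]
    apply one_div_le_one_div_of_le (by norm_num)
    linarith
  have hrρ : ((r : ℝ) + 1) * ρ = 1 := by rw [hρ]; field_simp
  rw [← hρ]
  obtain ⟨X₁, hX₁⟩ := hC
  rw [Metric.tendsto_atTop]
  intro ε hε
  obtain ⟨δ, hδdef⟩ : ∃ δ : ℝ, δ = min (1 / (8 * ((r : ℝ) + 1))) (ε / (8 * 1408 * (20 * ((r : ℝ) + 1)))) := ⟨_, rfl⟩
  have hδ : 0 < δ := by rw [hδdef]; positivity
  have hδ1 : δ ≤ 1 / (8 * ((r : ℝ) + 1)) := by rw [hδdef]; exact min_le_left _ _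
  have hδρ : 8 * δ ≤ ρ := by
    have h1 : 1 / (8 * ((r : ℝ) + 1)) = ρ / 8 := by rw [hρ]; field_simp
    rw [h1] at hδ1
    linarith
  have hδ2 : 1408 * (20 * ((r : ℝ) + 1) * δ) ≤ ε / 8 := by
    have h1 : δ ≤ ε / (8 * 1408 * (20 * ((r : ℝ) + 1))) := by rw [hδdef]; exact min_le_right _ _
    rw [le_div_iff₀ (by positivity)] at h1
    linarith
  obtain ⟨y₁, hy₁⟩ := thin_tail R hsum (ε / (8 * 1408)) (by positivity)
  obtain ⟨y₂, hy₂⟩ := eventually_atTop.1 ((Metric.tendsto_nhds.1 hAlim) (ε / 4) (by positivity))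
  obtain ⟨y, hydef⟩ : ∃ y, y = max y₁ y₂ := ⟨_, rfl⟩
  have hyA : |Ay y - A| < ε / 4 := by
    have := hy₂ y (by rw [hydef]; exact le_max_right _ _)
    rwa [Real.dist_eq] at this
  have hytail := hy₁ y (by rw [hydef]; exact le_max_left _ _)
  obtain ⟨x₁, hx₁⟩ := eventually_atTop.1 ((Metric.tendsto_nhds.1 (hfin y)) (ε / 4) (by positivity))
  obtain ⟨x₂, hx₂4, hx₂⟩ := tail r hr
  obtain ⟨x₃, hx₃⟩ := big_primes r hr δ hδ hδ1
  obtain ⟨P₀, hP₀⟩ := eventually_atTop.1 (hη.eventually (gt_mem_nhds hδ))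
  -- the small terms
  have hsm1 : ∀ᶠ x : ℝ in atTop, (P₀ : ℝ) + 1 ≤ x ^ (1 - δ : ℝ) :=
    (tendsto_rpow_atTop (by linarith)).eventually_ge_atTop _
  have hsm2 : ∀ᶠ x : ℝ in atTop, Real.log x ≤ ε / 128 * x ^ δ := by
    have h1 := (isLittleO_log_rpow_atTop hδ).bound (show (0 : ℝ) < ε / 128 by positivity)
    filter_upwards [h1, eventually_ge_atTop (1 : ℝ)] with x hx hx1
    rw [Real.norm_of_nonneg (Real.log_nonneg hx1), Real.norm_of_nonneg (by positivity)] at hx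
    exact hx
  have hsm3 : ∀ᶠ x : ℝ in atTop, 32 * C / ε ≤ Real.log x :=
    Real.tendsto_log_atTop.eventually_ge_atTop _
  have hsm4 : ∀ᶠ x : ℕ in atTop, (1 : ℝ) * (16 / ε) ≤ (Nat.primeCounting x : ℝ) :=
    (tendsto_natCast_atTop_atTop.comp Nat.tendsto_primeCounting).eventually_ge_atTop _
  obtain ⟨x₄, hx₄⟩ := eventually_atTop.1 (((tendsto_natCast_atTop_atTop (R := ℝ)).eventually
    ((hsm1.and hsm2).and hsm3)).and hsm4)
  refine ⟨max (max (max x₁ x₂) (max x₃ x₄)) X₁, fun x hx' => ?_⟩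
  have hx : max (max x₁ x₂) (max x₃ x₄) ≤ x := (le_max_left _ _).trans hx'
  have k0 : X₁ ≤ x := (le_max_right _ _).trans hx'
  have k1 : x₁ ≤ x := (le_max_left _ _).trans ((le_max_left _ _).trans hx)
  have k2 : x₂ ≤ x := (le_max_right _ _).trans ((le_max_left _ _).trans hx)
  have k3 : x₃ ≤ x := (le_max_left _ _).trans ((le_max_right _ _).trans hx)
  have k4 : x₄ ≤ x := (le_max_right _ _).trans ((le_max_right _ _).trans hx)
  obtain ⟨⟨⟨m1, m2⟩, m3⟩, m4⟩ := hx₄ x k4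
  have hx4 : 4 ≤ x := hx₂4.trans k2
  have hx4' : (4 : ℝ) ≤ x := by exact_mod_cast hx4
  have hx0 : (0 : ℝ) < x := by linarith
  have hx1' : (1 : ℝ) < x := by linarith
  have hlog : 0 < Real.log x := Real.log_pos hx1'
  have hcheb := ox_cheb x hx4
  obtain ⟨P, hP⟩ : ∃ P : ℝ, P = (Nat.primeCounting x : ℝ) := ⟨_, rfl⟩
  rw [← hP] at hcheb m4 ⊢
  have hPpos : 0 < P := by
    by_contra hcon
    push Not at hcon
    have : P * Real.log x ≤ 0 := mul_nonpos_of_nonpos_of_nonneg hcon hlog.le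
    linarith
  have hxP : (x : ℝ) / Real.log x ≤ 4 * P := by
    rw [div_le_iff₀ hlog]
    linarith
  obtain ⟨F, hF⟩ : ∃ F : Finset ℕ, F = (PP x).filter (fun p => G p ∧ ∀ l ∈ Ry R y, ¬ q l ∣ idx p) := ⟨_, rfl⟩
  obtain ⟨T, hT⟩ : ∃ T : Finset ℕ, T = (PP x).filter (fun p : ℕ => G p ∧
      ∀ l : ℕ, l.Prime → (l ∈ R ∨ (p : ℝ) ^ (ρ - η p) ≤ l) → ¬ q l ∣ idx p) := ⟨_, rfl⟩
  obtain ⟨Q, hQ⟩ : ∃ Q : ℕ → Prop, Q = fun l => (l ∈ R ∧ y < l) ∨ (x : ℝ) ^ (ρ - 2 * δ : ℝ) ≤ l := ⟨_, rfl⟩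
  rw [← hT]
  have hFx := hx₁ x k1
  rw [Real.dist_eq, ← hF, ← hP] at hFx
  have hTF : T ⊆ F := by
    intro p hp
    rw [hT, mem_filter] at hp
    rw [hF, mem_filter]
    exact ⟨hp.1, hp.2.1, fun l hl => hp.2.2 l (hR l (mem_Ry.1 hl).2) (Or.inl (mem_Ry.1 hl).2)⟩
  obtain ⟨Bd, hBd⟩ : ∃ Bd : Finset ℕ, Bd = (PP x).filter (fun p : ℕ => G p ∧ ∃ l : ℕ, l.Prime ∧ Q l ∧ l ∣ idx p) :=
    ⟨_, rfl⟩
  have hcover : F ⊆ T ∪ (Bd ∪ range (⌊(x : ℝ) ^ (1 - δ : ℝ)⌋₊ + 1)) := by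
    intro p hp
    rw [hF, mem_filter] at hp
    have hpp := (mem_PP'.1 hp.1).2
    by_cases hpsm : p < ⌊(x : ℝ) ^ (1 - δ : ℝ)⌋₊ + 1
    · apply mem_union_right
      apply mem_union_right
      exact mem_range.2 hpsm
    by_cases hpT : p ∈ T
    · exact mem_union_left _ hpT
    apply mem_union_right
    apply mem_union_left
    rw [hBd, mem_filter]
    refine ⟨hp.1, hp.2.1, ?_⟩
    rw [hT, mem_filter] at hpT
    have h1 : ¬ (∀ l : ℕ, l.Prime → (l ∈ R ∨ (p : ℝ) ^ (ρ - η p) ≤ l) → ¬ q l ∣ idx p) :=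
      fun h => hpT ⟨hp.1, hp.2.1, h⟩
    push Not at h1
    obtain ⟨l, hl, hl2, hl3⟩ := h1
    refine ⟨l, hl, ?_, (hq l).trans hl3⟩
    rw [hQ]
    rcases hl2 with h | h
    · left
      refine ⟨h, ?_⟩
      by_contra hcon
      push Not at hcon
      exact hp.2.2 l (mem_Ry.2 ⟨hcon, h⟩) hl3
    · right
      have hpge : (x : ℝ) ^ (1 - δ : ℝ) ≤ p := by
        have h2 : ⌊(x : ℝ) ^ (1 - δ : ℝ)⌋₊ + 1 ≤ p := by omega
        have h3 : ((⌊(x : ℝ) ^ (1 - δ : ℝ)⌋₊ : ℕ) : ℝ) + 1 ≤ p := by exact_mod_cast h2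
        exact (Nat.lt_floor_add_one _).le.trans h3
      have hpP : P₀ ≤ p := by
        have h2 : (P₀ : ℝ) ≤ p := by linarith
        exact_mod_cast h2
      have hηp := hP₀ p hpP
      have hp1 : (1 : ℝ) ≤ p := by exact_mod_cast hpp.one_le
      refine le_trans ?_ h
      calc (x : ℝ) ^ (ρ - 2 * δ : ℝ) ≤ (x : ℝ) ^ ((1 - δ) * (ρ - δ) : ℝ) := by
            apply Real.rpow_le_rpow_of_exponent_le hx1'.le
            nlinarith
        _ = ((x : ℝ) ^ (1 - δ : ℝ)) ^ (ρ - δ : ℝ) := Real.rpow_mul hx0.le _ _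
        _ ≤ (p : ℝ) ^ (ρ - δ : ℝ) := Real.rpow_le_rpow (by positivity) hpge (by linarith)
        _ ≤ (p : ℝ) ^ (ρ - η p : ℝ) := Real.rpow_le_rpow_of_exponent_le hp1 (by linarith)
  have hbd := hx₂ x k2 G idx C hG (hX₁ x k0) Q
  rw [← hBd] at hbd
  have hQsum : ∑ l ∈ (PP (zr r x)).filter Q, (1 / (l : ℝ)) ≤ ε / (8 * 1408) + 20 * ((r : ℝ) + 1) * δ := by
    have h1 : (PP (zr r x)).filter Q ⊆ (PP (zr r x)).filter (fun l => l ∈ R ∧ y < l) ∪
        (PP (zr r x)).filter (fun l : ℕ => (x : ℝ) ^ (ρ - 2 * δ : ℝ) ≤ l) := by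
      intro l hl
      rw [mem_filter, hQ] at hl
      rw [mem_union, mem_filter, mem_filter]
      rcases hl.2 with h | h
      · exact Or.inl ⟨hl.1, h⟩
      · exact Or.inr ⟨hl.1, h⟩
    have h2 := sum_le_sum_of_subset_of_nonneg (f := fun l : ℕ => 1 / (l : ℝ)) h1 fun _ _ _ => by positivity
    have h3 := sum_union_inter (s₁ := (PP (zr r x)).filter (fun l => l ∈ R ∧ y < l))
      (s₂ := (PP (zr r x)).filter (fun l : ℕ => (x : ℝ) ^ (ρ - 2 * δ : ℝ) ≤ l)) (f := fun l : ℕ => 1 / (l : ℝ))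
    have h4 : 0 ≤ ∑ l ∈ (PP (zr r x)).filter (fun l => l ∈ R ∧ y < l) ∩
      (PP (zr r x)).filter (fun l : ℕ => (x : ℝ) ^ (ρ - 2 * δ : ℝ) ≤ l), 1 / (l : ℝ) :=
      sum_nonneg fun _ _ => by positivity
    have h5 := hytail ((PP (zr r x)).filter (fun l => l ∈ R ∧ y < l)) (fun l hl => (mem_filter.1 hl).2)
    have h6 := hx₃ x k3 ((PP (zr r x)).filter (fun l : ℕ => (x : ℝ) ^ (ρ - 2 * δ : ℝ) ≤ l))
      (fun l hl => ⟨(mem_PP'.1 (mem_filter.1 hl).1).2, (mem_PP'.1 (mem_filter.1 hl).1).1, by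
        rw [← hρ]
        exact (mem_filter.1 hl).2⟩)
    linarith
  have hc1 := (card_le_card hcover).trans ((card_union_le _ _).trans (add_le_add_right (card_union_le _ _) _))
  rw [card_range] at hc1
  have hc2 : (F.card : ℝ) ≤ T.card + (Bd.card + ((⌊(x : ℝ) ^ (1 - δ : ℝ)⌋₊ : ℝ) + 1)) := by
    exact_mod_cast hc1
  have hfl : (⌊(x : ℝ) ^ (1 - δ : ℝ)⌋₊ : ℝ) ≤ (x : ℝ) ^ (1 - δ : ℝ) := Nat.floor_le (by positivity)
  -- the bounds in terms of `P`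
  have b1 : 352 * ((x : ℝ) / Real.log x) * ∑ l ∈ (PP (zr r x)).filter Q, (1 / (l : ℝ)) ≤ ε / 4 * P := by
    have h0 : 0 ≤ ∑ l ∈ (PP (zr r x)).filter Q, (1 / (l : ℝ)) := sum_nonneg fun _ _ => by positivity
    calc 352 * ((x : ℝ) / Real.log x) * ∑ l ∈ (PP (zr r x)).filter Q, (1 / (l : ℝ)) ≤
          352 * (4 * P) * (ε / (8 * 1408) + 20 * ((r : ℝ) + 1) * δ) := by
            apply mul_le_mul _ hQsum h0 (by positivity)
            linarith
      _ = (ε / 8 + 1408 * (20 * ((r : ℝ) + 1) * δ)) * P := by ring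
      _ ≤ (ε / 8 + ε / 8) * P := mul_le_mul_of_nonneg_right (by linarith) hPpos.le
      _ = ε / 4 * P := by ring
  have b2 : C * ((x : ℝ) / Real.log x ^ 2) ≤ ε / 8 * P := by
    have h1 : (x : ℝ) / Real.log x ^ 2 = (x : ℝ) / Real.log x * (1 / Real.log x) := by
      field_simp
    rw [h1]
    have h2 : C * (1 / Real.log x) ≤ ε / 32 := by
      rw [mul_one_div, div_le_iff₀ hlog]
      rw [div_le_iff₀ hε] at m3
      linarith
    calc C * ((x : ℝ) / Real.log x * (1 / Real.log x)) =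
          (C * (1 / Real.log x)) * ((x : ℝ) / Real.log x) := by ring
      _ ≤ ε / 32 * (4 * P) := mul_le_mul h2 hxP (by positivity) (by positivity)
      _ = ε / 8 * P := by ring
  have b3 : (x : ℝ) ^ (1 - δ : ℝ) ≤ ε / 32 * P := by
    have h1 : (x : ℝ) ^ (1 - δ : ℝ) * x ^ δ = x := by
      rw [← Real.rpow_add hx0]
      norm_num
    have h2 : (x : ℝ) ^ (1 - δ : ℝ) * Real.log x ≤ ε / 128 * x := by
      calc (x : ℝ) ^ (1 - δ : ℝ) * Real.log x ≤ (x : ℝ) ^ (1 - δ : ℝ) * (ε / 128 * x ^ δ) :=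
            mul_le_mul_of_nonneg_left m2 (by positivity)
        _ = ε / 128 * ((x : ℝ) ^ (1 - δ : ℝ) * x ^ δ) := by ring
        _ = _ := by rw [h1]
    have h3 : (x : ℝ) ^ (1 - δ : ℝ) * Real.log x ≤ (ε / 32 * P) * Real.log x := by
      refine h2.trans ?_
      have : (x : ℝ) ≤ 4 * (P * Real.log x) := by linarith
      calc ε / 128 * (x : ℝ) ≤ ε / 128 * (4 * (P * Real.log x)) := mul_le_mul_of_nonneg_left this (by positivity)
        _ = _ := by ring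
    exact le_of_mul_le_mul_right h3 hlog
  have b4 : (1 : ℝ) ≤ ε / 16 * P := by
    have h1 := mul_le_mul_of_nonneg_left m4 (show 0 ≤ ε / 16 by positivity)
    have h2 : ε / 16 * ((1 : ℝ) * (16 / ε)) = 1 := by
      field_simp
    linarith
  have hcTF : (T.card : ℝ) ≤ F.card := by exact_mod_cast card_le_card hTF
  have hdiff : (F.card : ℝ) - T.card ≤ (ε / 4 + ε / 8 + ε / 32 + ε / 16) * P := by
    have e : (ε / 4 + ε / 8 + ε / 32 + ε / 16) * P = ε / 4 * P + ε / 8 * P + ε / 32 * P + ε / 16 * P := by ring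
    rw [e]
    linarith
  have hratio : |(T.card : ℝ) / P - (F.card : ℝ) / P| ≤ ε / 4 + ε / 8 + ε / 32 + ε / 16 := by
    rw [← sub_div, abs_div, abs_of_pos hPpos, div_le_iff₀ hPpos, abs_sub_comm, abs_of_nonneg (by linarith)]
    exact hdiff
  rw [Real.dist_eq]
  have t1 := abs_sub_le ((T.card : ℝ) / P) ((F.card : ℝ) / P) A
  have t2 := abs_sub_le ((F.card : ℝ) / P) (Ay y) A
  linarith

end Pool.Agent.T6.H1.Lz
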