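import Pool.Agent.T6.H1.Lz.Abs

/-! # Families with a bounded number of exceptions: the general argument -/

set_option autoImplicit false

namespace Pool.Agent.T6.H1.Lz

open Filter Topology Finset
open Pool.Agent.H386R2.Artin (PP)
open Pool.Agent.H730R2.AA (ox_cheb)
open Pool.Agent.T6.H1.Th (Ry mem_Ry mem_PP' bt1 thin_tail)

/-! ### An elementary sum -/

lemma sumlog0 (u : ℕ) (hu : 1 ≤ u) : ∑ j ∈ Ico 1 u, (Real.log u - Real.log j) ≤ (u : ℝ) - 1 := by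
  induction u, hu using Nat.le_induction with
  | base => simp
  | succ u hu ih =>
    have hu0 : (0 : ℝ) < u := by exact_mod_cast hu
    have e1 : ∑ j ∈ Ico 1 (u + 1), (Real.log ((u + 1 : ℕ) : ℝ) - Real.log j) =
        ∑ j ∈ Ico 1 u, (Real.log u - Real.log j) + u * (Real.log ((u : ℝ) + 1) - Real.log u) := by
      rw [Finset.sum_Ico_succ_top hu]
      push_cast
      rw [sum_sub_distrib, sum_sub_distrib, sum_const, sum_const, Nat.card_Ico, nsmul_eq_mul, nsmul_eq_mul,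
        Nat.cast_sub hu, Nat.cast_one]
      ring
    rw [e1]
    have h1 : (u : ℝ) * (Real.log ((u : ℝ) + 1) - Real.log u) ≤ 1 := by
      rw [← Real.log_div (by linarith) hu0.ne']
      have h2 := Real.log_le_sub_one_of_pos (show 0 < ((u : ℝ) + 1) / u by positivity)
      have h3 : ((u : ℝ) + 1) / u - 1 = 1 / u := by field_simp; ring
      rw [h3] at h2
      calc (u : ℝ) * Real.log (((u : ℝ) + 1) / u) ≤ u * (1 / u) := mul_le_mul_of_nonneg_left h2 hu0.le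
        _ = 1 := by field_simp
    push_cast
    linarith

lemma sumlog (u ρ : ℕ) (hu : 1 ≤ u) :
    ∑ j ∈ Ico 1 u, (Real.log (((ρ * u : ℕ) : ℝ) + 1) - Real.log (((ρ * j : ℕ) : ℝ) + 1)) ≤ (u : ℝ) - 1 := by
  refine le_trans (sum_le_sum fun j hj => ?_) (sumlog0 u hu)
  rw [mem_Ico] at hj
  have hj0 : (0 : ℝ) < j := by exact_mod_cast hj.1
  have hu0 : (0 : ℝ) < u := by exact_mod_cast hu
  have hju : (j : ℝ) ≤ u := by exact_mod_cast hj.2.le
  have hρ0 : (0 : ℝ) ≤ ρ := Nat.cast_nonneg _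
  push_cast
  rw [← Real.log_div (by positivity) (by positivity), ← Real.log_div hu0.ne' hj0.ne']
  apply Real.log_le_log (by positivity)
  rw [div_le_div_iff₀ (by positivity) hj0]
  nlinarith

/-! ### Mertens' theorem between the bounds `zr` -/

lemma log_zr (r : ℕ) : Tendsto (fun x : ℕ => Real.log (zr r x) / Real.log x) atTop (𝓝 (1 / ((r : ℝ) + 1))) := by
  obtain ⟨ρ, hρ⟩ : ∃ ρ : ℝ, ρ = 1 / ((r : ℝ) + 1) := ⟨_, rfl⟩
  have hρ0 : 0 < ρ := by rw [hρ]; positivity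
  rw [← hρ, Metric.tendsto_atTop]
  intro ε hε
  have hev1 : ∀ᶠ x : ℝ in atTop, (2 : ℝ) ≤ x ^ ρ := (tendsto_rpow_atTop hρ0).eventually_ge_atTop _
  have hev2 : ∀ᶠ x : ℝ in atTop, 1 * Real.log x ^ r ≤ x ^ (ε / 2) := pow_log r 1 (ε / 2) (by norm_num) (by positivity)
  have hev3 : ∀ᶠ x : ℝ in atTop, Real.log 2 ≤ ε / 2 * Real.log x :=
    (Real.tendsto_log_atTop.const_mul_atTop (by positivity)).eventually_ge_atTop _
  obtain ⟨X, hX⟩ := eventually_atTop.1 ((tendsto_natCast_atTop_atTop (R := ℝ)).eventually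
    ((hev1.and hev2).and (hev3.and (eventually_ge_atTop (4 : ℝ)))))
  refine ⟨X, fun x hx => ?_⟩
  obtain ⟨⟨h1, h2⟩, h3, h4⟩ := hX x hx
  rw [one_mul] at h2
  have hx0 : (0 : ℝ) < x := by linarith
  have hx1 : (1 : ℝ) < x := by linarith
  have hlog : 0 < Real.log x := Real.log_pos hx1
  have hlog1 : 1 ≤ Real.log x := by
    rw [Real.le_log_iff_exp_le hx0]
    linarith [Real.exp_one_lt_d9]
  have hlogr : 1 ≤ Real.log x ^ r := one_le_pow₀ hlog1
  have hz1 : (x : ℝ) ^ ρ / 2 ≤ zr r x := by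
    have h5 : (x : ℝ) ^ ρ * Real.log x ^ r < zr r x + 1 := by
      unfold zr
      rw [← hρ]
      exact Nat.lt_floor_add_one _
    have h6 : (x : ℝ) ^ ρ * 1 ≤ (x : ℝ) ^ ρ * Real.log x ^ r := mul_le_mul_of_nonneg_left hlogr (by positivity)
    linarith
  have hz0 : (0 : ℝ) < zr r x := by linarith
  have hz2 : (zr r x : ℝ) ≤ (x : ℝ) ^ (ρ + ε / 2) := by
    have h5 : (zr r x : ℝ) ≤ (x : ℝ) ^ ρ * Real.log x ^ r := by
      unfold zr
      rw [← hρ]
      exact Nat.floor_le (by positivity)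
    refine h5.trans ?_
    rw [Real.rpow_add hx0]
    exact mul_le_mul_of_nonneg_left h2 (by positivity)
  have l1 : ρ * Real.log x - Real.log 2 ≤ Real.log (zr r x) := by
    have := Real.log_le_log (by positivity) hz1
    rwa [Real.log_div (by positivity) (by norm_num), Real.log_rpow hx0] at this
  have l2 : Real.log (zr r x) ≤ (ρ + ε / 2) * Real.log x := by
    have := Real.log_le_log hz0 hz2
    rwa [Real.log_rpow hx0] at this
  rw [Real.dist_eq, abs_lt]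
  constructor
  · have : (ρ - ε / 2) ≤ Real.log (zr r x) / Real.log x := by
      rw [le_div_iff₀ hlog]
      linarith
    linarith
  · have : Real.log (zr r x) / Real.log x ≤ ρ + ε / 2 := by
      rw [div_le_iff₀ hlog]
      exact l2
    linarith

lemma zr_tendsto (r : ℕ) : Tendsto (zr r) atTop atTop := by
  obtain ⟨ρ, hρ⟩ : ∃ ρ : ℝ, ρ = 1 / ((r : ℝ) + 1) := ⟨_, rfl⟩
  have hρ0 : 0 < ρ := by rw [hρ]; positivity
  rw [tendsto_atTop]
  intro b
  have hev1 : ∀ᶠ x : ℝ in atTop, (b : ℝ) ≤ x ^ ρ := (tendsto_rpow_atTop hρ0).eventually_ge_atTop _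
  filter_upwards [(tendsto_natCast_atTop_atTop (R := ℝ)).eventually hev1, eventually_ge_atTop 4] with x hx hx4
  have hx4' : (4 : ℝ) ≤ x := by exact_mod_cast hx4
  have hx0 : (0 : ℝ) < x := by linarith
  have hlog1 : 1 ≤ Real.log x := by
    rw [Real.le_log_iff_exp_le hx0]
    linarith [Real.exp_one_lt_d9]
  unfold zr
  apply Nat.le_floor
  rw [← hρ]
  calc (b : ℝ) ≤ (x : ℝ) ^ ρ * 1 := by rw [mul_one]; exact hx
    _ ≤ _ := mul_le_mul_of_nonneg_left (one_le_pow₀ hlog1) (by positivity)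

/-- the sum of the reciprocals of the primes up to `zr r x` -/
lemma mert_zr : ∃ M : ℝ, (∀ r : ℕ, Tendsto (fun x : ℕ => ∑ l ∈ PP (zr r x), (1 : ℝ) / l - Real.log (Real.log x))
    atTop (𝓝 (M - Real.log ((r : ℝ) + 1)))) := by
  obtain ⟨M, hM⟩ := Pool.Agent.H305R2.mertens_inv_tendsto
  refine ⟨M, fun r => ?_⟩
  have h1 := hM.comp (zr_tendsto r)
  have h2 : Tendsto (fun x : ℕ => Real.log (Real.log (zr r x) / Real.log x)) atTop
      (𝓝 (Real.log (1 / ((r : ℝ) + 1)))) :=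
    (Real.continuousAt_log (by positivity)).tendsto.comp (log_zr r)
  have h3 := h1.add h2
  have e : M + Real.log (1 / ((r : ℝ) + 1)) = M - Real.log ((r : ℝ) + 1) := by
    rw [one_div, Real.log_inv]
    ring
  rw [e] at h3
  refine h3.congr' ?_
  filter_upwards [(zr_tendsto r).eventually_ge_atTop 3, eventually_ge_atTop 3] with x hz hx
  have hz' : (1 : ℝ) < zr r x := by exact_mod_cast (by omega : 1 < zr r x)
  have hx' : (1 : ℝ) < x := by exact_mod_cast (by omega : 1 < x)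
  have l1 : 0 < Real.log (zr r x) := Real.log_pos hz'
  have l2 : 0 < Real.log x := Real.log_pos hx'
  have hPP : (Icc 1 (zr r x)).filter Nat.Prime = PP (zr r x) := by
    ext l
    rw [mem_filter, mem_Icc, mem_PP']
    constructor
    · exact fun h => ⟨h.1.2, h.2⟩
    · exact fun h => ⟨⟨h.2.one_le, h.1⟩, h.2⟩
  simp only [Function.comp_apply]
  rw [Real.log_div l1.ne' l2.ne', hPP]
  ring

lemma zr_le (r₁ r₂ : ℕ) (h : r₁ < r₂) : ∀ᶠ x : ℕ in atTop, zr r₂ x ≤ zr r₁ x := by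
  have hlt : 1 / ((r₂ : ℝ) + 1) < 1 / ((r₁ : ℝ) + 1) := by
    apply one_div_lt_one_div_of_lt (by positivity)
    have : (r₁ : ℝ) < r₂ := by exact_mod_cast h
    linarith
  have h1 := pow_log r₂ 1 (1 / ((r₁ : ℝ) + 1) - 1 / ((r₂ : ℝ) + 1)) (by norm_num) (by linarith)
  filter_upwards [(tendsto_natCast_atTop_atTop (R := ℝ)).eventually h1, eventually_ge_atTop 4] with x hx hx4
  rw [one_mul] at hx
  have hx4' : (4 : ℝ) ≤ x := by exact_mod_cast hx4
  have hx0 : (0 : ℝ) < x := by linarith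
  have hlog1 : 1 ≤ Real.log x := by
    rw [Real.le_log_iff_exp_le hx0]
    linarith [Real.exp_one_lt_d9]
  unfold zr
  apply Nat.floor_le_floor
  calc (x : ℝ) ^ (1 / ((r₂ : ℝ) + 1)) * Real.log x ^ r₂ ≤ (x : ℝ) ^ (1 / ((r₂ : ℝ) + 1)) *
        (x : ℝ) ^ (1 / ((r₁ : ℝ) + 1) - 1 / ((r₂ : ℝ) + 1)) := mul_le_mul_of_nonneg_left hx (by positivity)
    _ = (x : ℝ) ^ (1 / ((r₁ : ℝ) + 1)) * 1 := by
        rw [← Real.rpow_add hx0, mul_one]
        congr 1
        ring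
    _ ≤ _ := mul_le_mul_of_nonneg_left (one_le_pow₀ hlog1) (by positivity)

/-- the primes between two of the bounds -/
noncomputable def Dz (ρ u j x : ℕ) : Finset ℕ := (PP (zr (ρ * j) x)).filter (fun l => zr (ρ * u) x < l)

lemma Dz_sum (ρ u : ℕ) (hρ : 1 ≤ ρ) (hu : 1 ≤ u) (ε : ℝ) (hε : 0 < ε) :
    ∀ᶠ x : ℕ in atTop, ∑ j ∈ Ico 1 u, ∑ l ∈ Dz ρ u j x, (1 : ℝ) / l ≤ (u : ℝ) - 1 + ε := by
  obtain ⟨M, hM⟩ := mert_zr
  have h1 : Tendsto (fun x : ℕ => ∑ j ∈ Ico 1 u, ((∑ l ∈ PP (zr (ρ * j) x), (1 : ℝ) / l - Real.log (Real.log x)) -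
      (∑ l ∈ PP (zr (ρ * u) x), (1 : ℝ) / l - Real.log (Real.log x)))) atTop
      (𝓝 (∑ j ∈ Ico 1 u, ((M - Real.log (((ρ * j : ℕ) : ℝ) + 1)) - (M - Real.log (((ρ * u : ℕ) : ℝ) + 1))))) :=
    tendsto_finsetSum _ fun j _ => (hM (ρ * j)).sub (hM (ρ * u))
  have h2 : ∑ j ∈ Ico 1 u, ((M - Real.log (((ρ * j : ℕ) : ℝ) + 1)) - (M - Real.log (((ρ * u : ℕ) : ℝ) + 1))) ≤
      (u : ℝ) - 1 := by
    refine le_trans (le_of_eq ?_) (sumlog u ρ hu)
    apply sum_congr rfl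
    intro j _
    ring
  have h3 := h1.eventually (gt_mem_nhds (show _ < (u : ℝ) - 1 + ε by linarith))
  have h4 : ∀ᶠ x : ℕ in atTop, ∀ j ∈ Ico 1 u, zr (ρ * u) x ≤ zr (ρ * j) x := by
    rw [eventually_all_finset]
    intro j hj
    rw [mem_Ico] at hj
    exact zr_le _ _ (Nat.mul_lt_mul_of_pos_left hj.2 hρ)
  filter_upwards [h3, h4] with x hx hz
  refine le_trans (le_of_eq ?_) hx.le
  apply sum_congr rfl
  intro j hj
  have hz' := hz j hj
  have hsub : PP (zr (ρ * u) x) ⊆ PP (zr (ρ * j) x) := by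
    intro l hl
    rw [mem_PP'] at hl ⊢
    exact ⟨hl.1.trans hz', hl.2⟩
  have e1 : Dz ρ u j x = PP (zr (ρ * j) x) \ PP (zr (ρ * u) x) := by
    ext l
    unfold Dz
    rw [mem_filter, Finset.mem_sdiff, mem_PP', mem_PP']
    constructor
    · rintro ⟨⟨h5, h6⟩, h7⟩
      exact ⟨⟨h5, h6⟩, fun h8 => by omega⟩
    · rintro ⟨⟨h5, h6⟩, h7⟩
      refine ⟨⟨h5, h6⟩, ?_⟩
      by_contra h8
      exact h7 ⟨by omega, h6⟩
  have h5 := sum_sdiff hsub (f := fun l : ℕ => (1 : ℝ) / l)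
  rw [e1]
  linarith

/-- the Brun-Titchmarsh inequality up to `zr r x` -/
lemma bt_zr (r : ℕ) (hr : 1 ≤ r) : ∀ᶠ x : ℕ in atTop, ∀ l ∈ PP (zr r x),
    (((PP x).filter (fun p => l ∣ p - 1)).card : ℝ) ≤ 352 * ((x : ℝ) / Real.log x) * (1 / (l : ℝ)) := by
  have hr1 : (1 : ℝ) ≤ r := by exact_mod_cast hr
  filter_upwards [(tendsto_natCast_atTop_atTop (R := ℝ)).eventually
    (pow_log r 1 (1 / 4) (by norm_num) (by norm_num)), eventually_ge_atTop 4] with x hlogx hx4 l hl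
  rw [one_mul] at hlogx
  have hx4' : (4 : ℝ) ≤ x := by exact_mod_cast hx4
  have hx0 : (0 : ℝ) < x := by linarith
  rw [mem_PP'] at hl
  have hlp := hl.2
  have hl0 : (0 : ℝ) < l := by exact_mod_cast hlp.pos
  have h1 : (l : ℝ) ≤ (x : ℝ) ^ (1 / 2 : ℝ) * Real.log x ^ r := by
    have h2 : (l : ℝ) ≤ (zr r x : ℝ) := by exact_mod_cast hl.1
    have hlog0 : 0 ≤ Real.log x := Real.log_nonneg (by linarith)
    refine h2.trans ((Nat.floor_le (by positivity)).trans ?_)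
    apply mul_le_mul_of_nonneg_right _ (by positivity)
    apply Real.rpow_le_rpow_of_exponent_le (by linarith)
    apply one_div_le_one_div_of_le (by norm_num)
    linarith
  have h2 : (l : ℝ) * (x : ℝ) ^ (1 / 4 : ℝ) ≤ x := by
    calc (l : ℝ) * (x : ℝ) ^ (1 / 4 : ℝ) ≤ (x : ℝ) ^ (1 / 2 : ℝ) * Real.log x ^ r * (x : ℝ) ^ (1 / 4 : ℝ) :=
          mul_le_mul_of_nonneg_right h1 (by positivity)
      _ ≤ (x : ℝ) ^ (1 / 2 : ℝ) * (x : ℝ) ^ (1 / 4 : ℝ) * (x : ℝ) ^ (1 / 4 : ℝ) := by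
          apply mul_le_mul_of_nonneg_right _ (by positivity)
          exact mul_le_mul_of_nonneg_left hlogx (by positivity)
      _ = x := by
          rw [← Real.rpow_add hx0, ← Real.rpow_add hx0]
          norm_num
  have h3 : (1 : ℝ) ≤ (x : ℝ) ^ (1 / 4 : ℝ) := Real.one_le_rpow (by linarith) (by norm_num)
  apply bt1 x l hlp (by omega)
  · calc (l : ℝ) = l * 1 := (mul_one _).symm
      _ ≤ (l : ℝ) * (x : ℝ) ^ (1 / 4 : ℝ) := mul_le_mul_of_nonneg_left h3 hl0.le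
      _ ≤ x := h2
  · rw [le_div_iff₀ hl0, mul_comm]
    exact h2

open Classical in
/-- the members of the family for which a large prime divides the index modulo `p` -/
lemma few (ι : Type) [Fintype ι] (u ρ x p : ℕ) (hu : 1 ≤ u) (hp : p.Prime) (G : ι → Prop) (idx : ι → ℕ)
    (hG : ∀ i l, G i → l ∣ idx i → l ∣ p - 1)
    (hE : ¬ ∃ j l : ℕ, 1 ≤ j ∧ j ≤ u ∧ l.Prime ∧ zr (ρ * j) x < l ∧ j ≤ #(univ.filter (fun i => G i ∧ l ∣ idx i))) :
    #(univ.filter (fun i => G i ∧ ∃ l : ℕ, l.Prime ∧ zr (ρ * u) x < l ∧ l ∣ idx i)) ≤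
      ∑ j ∈ Ico 1 u, #((Dz ρ u j x).filter (fun l => l ∣ p - 1)) := by
  push Not at hE
  have hp1 : p - 1 ≠ 0 := by have := hp.two_le; omega
  obtain ⟨P, hP⟩ : ∃ P : Finset ℕ, P = (p - 1).primeFactors.filter (fun l => zr (ρ * u) x < l) := ⟨_, rfl⟩
  have h1 : univ.filter (fun i => G i ∧ ∃ l : ℕ, l.Prime ∧ zr (ρ * u) x < l ∧ l ∣ idx i) ⊆
      P.biUnion (fun l => univ.filter (fun i => G i ∧ l ∣ idx i)) := by
    intro i hi
    rw [mem_filter] at hi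
    obtain ⟨-, hGi, l, hl, hlz, hli⟩ := hi
    rw [mem_biUnion]
    refine ⟨l, ?_, mem_filter.2 ⟨mem_univ _, hGi, hli⟩⟩
    rw [hP, mem_filter, Nat.mem_primeFactors]
    exact ⟨⟨hl, hG i l hGi hli, hp1⟩, hlz⟩
  have h2 : ∀ l ∈ P, #(univ.filter (fun i => G i ∧ l ∣ idx i)) ≤ #((Ico 1 u).filter (fun j => l ≤ zr (ρ * j) x)) := by
    intro l hl
    rw [hP, mem_filter, Nat.mem_primeFactors] at hl
    obtain ⟨⟨hlp, -, -⟩, hlz⟩ := hl
    obtain ⟨c, hc⟩ : ∃ c, c = #(univ.filter (fun i => G i ∧ l ∣ idx i)) := ⟨_, rfl⟩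
    rw [← hc]
    have hcu : c < u := by
      have := hE u l hu le_rfl hlp hlz
      rwa [← hc] at this
    have h3 : Icc 1 c ⊆ (Ico 1 u).filter (fun j => l ≤ zr (ρ * j) x) := by
      intro j hj
      rw [mem_Icc] at hj
      rw [mem_filter, mem_Ico]
      refine ⟨⟨hj.1, by omega⟩, ?_⟩
      by_contra hcon
      push Not at hcon
      have := hE j l hj.1 (by omega) hlp hcon
      rw [← hc] at this
      omega
    have h4 := card_le_card h3
    rwa [Nat.card_Icc, Nat.add_sub_cancel] at h4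
  calc #(univ.filter (fun i => G i ∧ ∃ l : ℕ, l.Prime ∧ zr (ρ * u) x < l ∧ l ∣ idx i)) ≤
        #(P.biUnion (fun l => univ.filter (fun i => G i ∧ l ∣ idx i))) := card_le_card h1
    _ ≤ ∑ l ∈ P, #(univ.filter (fun i => G i ∧ l ∣ idx i)) := card_biUnion_le
    _ ≤ ∑ l ∈ P, #((Ico 1 u).filter (fun j => l ≤ zr (ρ * j) x)) := sum_le_sum h2
    _ = ∑ l ∈ P, ∑ j ∈ Ico 1 u, (if l ≤ zr (ρ * j) x then 1 else 0) := by
        apply sum_congr rfl
        intro l _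
        rw [card_filter]
    _ = ∑ j ∈ Ico 1 u, ∑ l ∈ P, (if l ≤ zr (ρ * j) x then 1 else 0) := sum_comm
    _ ≤ ∑ j ∈ Ico 1 u, #((Dz ρ u j x).filter (fun l => l ∣ p - 1)) := by
        apply sum_le_sum
        intro j _
        rw [← card_filter]
        apply card_le_card
        intro l hl
        rw [hP, mem_filter, mem_filter, Nat.mem_primeFactors] at hl
        rw [mem_filter]
        unfold Dz
        rw [mem_filter, mem_PP']
        exact ⟨⟨⟨hl.2, hl.1.1.1⟩, hl.1.2⟩, hl.1.1.2.1⟩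

open Classical in
/-- summation over the primes `p` -/
lemma total (ι : Type) [Fintype ι] (u ρ x : ℕ) (hu : 1 ≤ u) (G : ι → ℕ → Prop) (idx : ι → ℕ → ℕ)
    (hG : ∀ i p l, p.Prime → G i p → l ∣ idx i p → l ∣ p - 1)
    (hbt : ∀ j ∈ Ico 1 u, ∀ l ∈ PP (zr (ρ * j) x),
      (((PP x).filter (fun p => l ∣ p - 1)).card : ℝ) ≤ 352 * ((x : ℝ) / Real.log x) * (1 / (l : ℝ))) :
    (∑ i, #((PP x).filter (fun p => G i p ∧ ∃ l : ℕ, l.Prime ∧ zr (ρ * u) x < l ∧ l ∣ idx i p)) : ℝ) ≤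
      (Fintype.card ι : ℝ) * #((PP x).filter (fun p => ∃ j l : ℕ, 1 ≤ j ∧ j ≤ u ∧ l.Prime ∧ zr (ρ * j) x < l ∧
        j ≤ #(univ.filter (fun i => G i p ∧ l ∣ idx i p)))) +
      352 * ((x : ℝ) / Real.log x) * ∑ j ∈ Ico 1 u, ∑ l ∈ Dz ρ u j x, (1 : ℝ) / l := by
  obtain ⟨E, hE⟩ : ∃ E : Finset ℕ, E = (PP x).filter (fun p => ∃ j l : ℕ, 1 ≤ j ∧ j ≤ u ∧ l.Prime ∧ zr (ρ * j) x < l ∧
        j ≤ #(univ.filter (fun i => G i p ∧ l ∣ idx i p))) := ⟨_, rfl⟩
  rw [← hE]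
  have h1 : ∑ i, #((PP x).filter (fun p => G i p ∧ ∃ l : ℕ, l.Prime ∧ zr (ρ * u) x < l ∧ l ∣ idx i p)) =
      ∑ p ∈ PP x, #(univ.filter (fun i => G i p ∧ ∃ l : ℕ, l.Prime ∧ zr (ρ * u) x < l ∧ l ∣ idx i p)) := by
    simp only [card_filter]
    rw [sum_comm]
  have h2 : ∀ p ∈ PP x, #(univ.filter (fun i => G i p ∧ ∃ l : ℕ, l.Prime ∧ zr (ρ * u) x < l ∧ l ∣ idx i p)) ≤
      (if p ∈ E then Fintype.card ι else 0) + ∑ j ∈ Ico 1 u, #((Dz ρ u j x).filter (fun l => l ∣ p - 1)) := by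
    intro p hp
    by_cases hpE : p ∈ E
    · rw [if_pos hpE]
      exact (card_le_univ _).trans (Nat.le_add_right _ _)
    · rw [if_neg hpE, zero_add]
      apply few ι u ρ x p hu (mem_PP'.1 hp).2 (fun i => G i p) (fun i => idx i p)
        (fun i l => hG i p l (mem_PP'.1 hp).2)
      intro hcon
      exact hpE (by rw [hE, mem_filter]; exact ⟨hp, hcon⟩)
  have h3 : ∑ p ∈ PP x, ((if p ∈ E then Fintype.card ι else 0) +
      ∑ j ∈ Ico 1 u, #((Dz ρ u j x).filter (fun l => l ∣ p - 1))) =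
      Fintype.card ι * #E + ∑ j ∈ Ico 1 u, ∑ l ∈ Dz ρ u j x, #((PP x).filter (fun p => l ∣ p - 1)) := by
    rw [sum_add_distrib]
    congr 1
    · rw [← sum_filter, sum_const, smul_eq_mul, mul_comm]
      congr 2
      ext p
      rw [mem_filter]
      constructor
      · exact fun h => h.2
      · intro h
        refine ⟨?_, h⟩
        rw [hE, mem_filter] at h
        exact h.1
    · simp only [card_filter]
      rw [sum_comm]
      apply sum_congr rfl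
      intro j _
      rw [sum_comm]
  have h4 : ∑ i, #((PP x).filter (fun p => G i p ∧ ∃ l : ℕ, l.Prime ∧ zr (ρ * u) x < l ∧ l ∣ idx i p)) ≤
      Fintype.card ι * #E + ∑ j ∈ Ico 1 u, ∑ l ∈ Dz ρ u j x, #((PP x).filter (fun p => l ∣ p - 1)) := by
    rw [h1, ← h3]
    exact sum_le_sum h2
  have h5 : ((∑ i, #((PP x).filter (fun p => G i p ∧ ∃ l : ℕ, l.Prime ∧ zr (ρ * u) x < l ∧ l ∣ idx i p)) : ℕ) : ℝ) ≤
      ((Fintype.card ι * #E + ∑ j ∈ Ico 1 u, ∑ l ∈ Dz ρ u j x, #((PP x).filter (fun p => l ∣ p - 1)) : ℕ) : ℝ) := by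
    exact_mod_cast h4
  push_cast at h5
  refine h5.trans ?_
  apply add_le_add_right
  rw [mul_sum]
  apply sum_le_sum
  intro j hj
  rw [mul_sum]
  apply sum_le_sum
  intro l hl
  unfold Dz at hl
  exact hbt j hj l (mem_filter.1 hl).1

end Pool.Agent.T6.H1.Lz
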