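import Pool.Agent.T6.H1.Lz.FamAbs

/-! # Families with a bounded number of exceptions: the main theorem -/

set_option autoImplicit false

namespace Pool.Agent.T6.H1.Lz

open Filter Topology Finset
open Pool.Agent.H386R2.Artin (PP)
open Pool.Agent.H730R2.AA (ox_cheb)
open Pool.Agent.T6.H1.Th (Ry mem_Ry mem_PP' bt1 thin_tail)

open Classical in
/-- **the general theorem for families** -/
theorem fam (ι : Type) [Fintype ι] (u ρ : ℕ) (hu : 1 ≤ u) (hρ : 1 ≤ ρ) (G : ι → ℕ → Prop) (idx q : ι → ℕ → ℕ) (C : ℝ)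
    (hq : ∀ i l, l ∣ q i l)
    (hG : ∀ i p l, p.Prime → G i p → l ∣ idx i p → l ∣ p - 1)
    (hC : ∀ᶠ x : ℕ in atTop, (#((PP x).filter (fun p => ∃ j l : ℕ, 1 ≤ j ∧ j ≤ u ∧ l.Prime ∧ zr (ρ * j) x < l ∧
        j ≤ #(univ.filter (fun i => G i p ∧ l ∣ idx i p)))) : ℝ) ≤ C * ((x : ℝ) / Real.log x ^ 2))
    (R : Set ℕ) (hR : ∀ l ∈ R, l.Prime) (hsum : Summable (fun l : R => 1 / ((l : ℕ) : ℝ)))
    (η : ℕ → ℝ) (hη : Tendsto η atTop (𝓝 0)) (Ay : ι → ℕ → ℝ) (A : ι → ℝ)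
    (hAlim : ∀ i, Tendsto (Ay i) atTop (𝓝 (A i)))
    (hfin : ∀ i, ∀ y : ℕ, Tendsto (fun x : ℕ => (((PP x).filter (fun p => G i p ∧ ∀ l ∈ Ry R y, ¬ q i l ∣ idx i p)).card : ℝ) /
      (Nat.primeCounting x : ℝ)) atTop (𝓝 (Ay i y)))
    (ε : ℝ) (hε : 0 < ε) (hε1 : ε ≤ 1) :
    ∀ᶠ x : ℕ in atTop,
      (∀ i, (((PP x).filter (fun p : ℕ => G i p ∧
        ∀ l : ℕ, l.Prime → (l ∈ R ∨ (p : ℝ) ^ (1 / (((ρ * u : ℕ) : ℝ) + 1) - η p) ≤ l) → ¬ q i l ∣ idx i p)).card : ℝ) ≤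
        (A i + ε) * (Nat.primeCounting x : ℝ)) ∧
      (#(univ.filter (fun i => (((PP x).filter (fun p : ℕ => G i p ∧
        ∀ l : ℕ, l.Prime → (l ∈ R ∨ (p : ℝ) ^ (1 / (((ρ * u : ℕ) : ℝ) + 1) - η p) ≤ l) → ¬ q i l ∣ idx i p)).card : ℝ) <
        (A i - ε) * (Nat.primeCounting x : ℝ))) : ℝ) ≤ 3000 * ((u : ℝ) - 1) / ε := by
  obtain ⟨r, hr⟩ : ∃ r, r = ρ * u := ⟨_, rfl⟩
  have hr1 : 1 ≤ r := by rw [hr]; exact Nat.mul_pos hρ hu
  rw [← hr]
  obtain ⟨τ, hτ⟩ : ∃ τ : ℝ, τ = 1 / ((r : ℝ) + 1) := ⟨_, rfl⟩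
  have hr1' : (1 : ℝ) ≤ r := by exact_mod_cast hr1
  have hτ0 : 0 < τ := by rw [hτ]; positivity
  have hτ1 : τ ≤ 1 / 2 := by
    rw [hτ]
    apply one_div_le_one_div_of_le (by norm_num)
    linarith
  rw [← hτ]
  obtain ⟨δ, hδdef⟩ : ∃ δ : ℝ, δ = min (1 / (8 * ((r : ℝ) + 1))) (ε / (32 * 1408 * (20 * ((r : ℝ) + 1)))) := ⟨_, rfl⟩
  have hδ : 0 < δ := by rw [hδdef]; positivity
  have hδ1 : δ ≤ 1 / (8 * ((r : ℝ) + 1)) := by rw [hδdef]; exact min_le_left _ _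
  have hδτ : 8 * δ ≤ τ := by
    have h1 : 1 / (8 * ((r : ℝ) + 1)) = τ / 8 := by rw [hτ]; field_simp
    rw [h1] at hδ1
    linarith
  have hδ2 : 1408 * (20 * ((r : ℝ) + 1) * δ) ≤ ε / 32 := by
    have h1 : δ ≤ ε / (32 * 1408 * (20 * ((r : ℝ) + 1))) := by rw [hδdef]; exact min_le_right _ _
    rw [le_div_iff₀ (by positivity)] at h1
    linarith
  obtain ⟨y₁, hy₁⟩ := thin_tail R hsum (ε / (32 * 1408)) (by positivity)
  have hy₂ : ∀ᶠ y : ℕ in atTop, ∀ i, |Ay i y - A i| < ε / 16 := by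
    rw [eventually_all]
    intro i
    filter_upwards [(Metric.tendsto_nhds.1 (hAlim i)) (ε / 16) (by positivity)] with y hy
    rwa [Real.dist_eq] at hy
  obtain ⟨y, hyA, hyy⟩ := (hy₂.and (eventually_ge_atTop y₁)).exists
  have hytail := hy₁ y hyy
  have hx₁ : ∀ᶠ x : ℕ in atTop, ∀ i, |(((PP x).filter (fun p => G i p ∧ ∀ l ∈ Ry R y, ¬ q i l ∣ idx i p)).card : ℝ) /
      (Nat.primeCounting x : ℝ) - Ay i y| < ε / 16 := by
    rw [eventually_all]
    intro i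
    filter_upwards [(Metric.tendsto_nhds.1 (hfin i y)) (ε / 16) (by positivity)] with x hx
    rwa [Real.dist_eq] at hx
  obtain ⟨x₃, hx₃⟩ := big_primes r hr1 δ hδ hδ1
  obtain ⟨P₀, hP₀⟩ := eventually_atTop.1 (hη.eventually (gt_mem_nhds hδ))
  -- the small terms
  have hsm1 : ∀ᶠ x : ℝ in atTop, (P₀ : ℝ) + 1 ≤ x ^ (1 - δ : ℝ) :=
    (tendsto_rpow_atTop (by
      have : δ < 1 := by linarith
      linarith)).eventually_ge_atTop _
  have hsm2 : ∀ᶠ x : ℝ in atTop, Real.log x ≤ ε / 128 * x ^ δ := by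
    have h1 := (isLittleO_log_rpow_atTop hδ).bound (show (0 : ℝ) < ε / 128 by positivity)
    filter_upwards [h1, eventually_ge_atTop (1 : ℝ)] with x hx hx1
    rw [Real.norm_of_nonneg (Real.log_nonneg hx1), Real.norm_of_nonneg (by positivity)] at hx
    exact hx
  have hsm3 : ∀ᶠ x : ℝ in atTop, 64 * ((Fintype.card ι : ℝ) * C) / ε ≤ Real.log x :=
    Real.tendsto_log_atTop.eventually_ge_atTop _
  have hsm4 : ∀ᶠ x : ℕ in atTop, (1 : ℝ) * (16 / ε) ≤ (Nat.primeCounting x : ℝ) :=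
    (tendsto_natCast_atTop_atTop.comp Nat.tendsto_primeCounting).eventually_ge_atTop _
  have hbt : ∀ᶠ x : ℕ in atTop, ∀ j ∈ Ico 1 u, ∀ l ∈ PP (zr (ρ * j) x),
      (((PP x).filter (fun p => l ∣ p - 1)).card : ℝ) ≤ 352 * ((x : ℝ) / Real.log x) * (1 / (l : ℝ)) := by
    rw [eventually_all_finset]
    intro j hj
    rw [mem_Ico] at hj
    exact bt_zr (ρ * j) (Nat.mul_pos hρ hj.1)
  filter_upwards [hx₁, eventually_ge_atTop x₃, eventually_ge_atTop 4,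
    (tendsto_natCast_atTop_atTop (R := ℝ)).eventually hsm1, (tendsto_natCast_atTop_atTop (R := ℝ)).eventually hsm2,
    (tendsto_natCast_atTop_atTop (R := ℝ)).eventually hsm3, hsm4, hbt, bt_zr r hr1, hC,
    Dz_sum ρ u hρ hu (ε / (32 * 1408)) (by positivity)] with x hx₁ k3 hx4 m1 m2 m3 m4 hbt hbtr hC hDz
  have hx4' : (4 : ℝ) ≤ x := by exact_mod_cast hx4
  have hx0 : (0 : ℝ) < x := by linarith
  have hx1' : (1 : ℝ) < x := by linarith
  have hlog : 0 < Real.log x := Real.log_pos hx1'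
  have hcheb := ox_cheb x hx4
  obtain ⟨P, hP⟩ : ∃ P : ℝ, P = (Nat.primeCounting x : ℝ) := ⟨_, rfl⟩
  rw [← hP] at hcheb m4 ⊢
  simp only [← hP] at hx₁
  have hPpos : 0 < P := by
    by_contra hcon
    push Not at hcon
    have : P * Real.log x ≤ 0 := mul_nonpos_of_nonpos_of_nonneg hcon hlog.le
    linarith
  have hxP : (x : ℝ) / Real.log x ≤ 4 * P := by
    rw [div_le_iff₀ hlog]
    linarith
  obtain ⟨F, hF⟩ : ∃ F : ι → Finset ℕ, F = fun i => (PP x).filter (fun p => G i p ∧ ∀ l ∈ Ry R y, ¬ q i l ∣ idx i p) :=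
    ⟨_, rfl⟩
  obtain ⟨T, hT⟩ : ∃ T : ι → Finset ℕ, T = fun i => (PP x).filter (fun p : ℕ => G i p ∧
      ∀ l : ℕ, l.Prime → (l ∈ R ∨ (p : ℝ) ^ (τ - η p) ≤ l) → ¬ q i l ∣ idx i p) := ⟨_, rfl⟩
  obtain ⟨Q, hQ⟩ : ∃ Q : ℕ → Prop, Q = fun l => (l ∈ R ∧ y < l) ∨ (x : ℝ) ^ (τ - 2 * δ : ℝ) ≤ l := ⟨_, rfl⟩
  have hTi : ∀ i, (PP x).filter (fun p : ℕ => G i p ∧
      ∀ l : ℕ, l.Prime → (l ∈ R ∨ (p : ℝ) ^ (τ - η p) ≤ l) → ¬ q i l ∣ idx i p) = T i := by
    intro i; rw [hT]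
  have hFi : ∀ i, (PP x).filter (fun p => G i p ∧ ∀ l ∈ Ry R y, ¬ q i l ∣ idx i p) = F i := by
    intro i; rw [hF]
  simp only [hTi]
  simp only [hFi] at hx₁
  have hTF : ∀ i, T i ⊆ F i := by
    intro i p hp
    rw [hT, mem_filter] at hp
    rw [hF, mem_filter]
    exact ⟨hp.1, hp.2.1, fun l hl => hp.2.2 l (hR l (mem_Ry.1 hl).2) (Or.inl (mem_Ry.1 hl).2)⟩
  -- the middle range, uniformly
  obtain ⟨Bm, hBm⟩ : ∃ Bm : Finset ℕ, Bm = ((PP (zr r x)).filter Q).biUnion (fun l => (PP x).filter (fun p => l ∣ p - 1)) :=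
    ⟨_, rfl⟩
  obtain ⟨Bl, hBl⟩ : ∃ Bl : ι → Finset ℕ, Bl = fun i => (PP x).filter
      (fun p => G i p ∧ ∃ l : ℕ, l.Prime ∧ zr r x < l ∧ l ∣ idx i p) := ⟨_, rfl⟩
  have hcover : ∀ i, F i ⊆ T i ∪ (Bm ∪ (Bl i ∪ range (⌊(x : ℝ) ^ (1 - δ : ℝ)⌋₊ + 1))) := by
    intro i p hp
    by_cases hpT : p ∈ T i
    · exact mem_union_left _ hpT
    rw [hF, mem_filter] at hp
    have hpp := (mem_PP'.1 hp.1).2
    apply mem_union_right
    by_cases hpsm : p < ⌊(x : ℝ) ^ (1 - δ : ℝ)⌋₊ + 1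
    · apply mem_union_right
      apply mem_union_right
      exact mem_range.2 hpsm
    rw [hT, mem_filter] at hpT
    have h1 : ¬ (∀ l : ℕ, l.Prime → (l ∈ R ∨ (p : ℝ) ^ (τ - η p) ≤ l) → ¬ q i l ∣ idx i p) :=
      fun h => hpT ⟨hp.1, hp.2.1, h⟩
    push Not at h1
    obtain ⟨l, hl, hl2, hl3⟩ := h1
    have hli : l ∣ idx i p := (hq i l).trans hl3
    have hQl : Q l := by
      rw [hQ]
      rcases hl2 with h | h
      · left
        refine ⟨h, ?_⟩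
        by_contra hcon
        push Not at hcon
        exact hp.2.2 l (mem_Ry.2 ⟨hcon, h⟩) hl3
      · right
        have hpge : (x : ℝ) ^ (1 - δ : ℝ) ≤ p := by
          have h2 : ⌊(x : ℝ) ^ (1 - δ : ℝ)⌋₊ + 1 ≤ p := by omega
          have h3 : ((⌊(x : ℝ) ^ (1 - δ : ℝ)⌋₊ : ℕ) : ℝ) + 1 ≤ p := by exact_mod_cast h2
          exact (Nat.lt_floor_add_one _).le.trans h3
        have hpP : P₀ ≤ p := by
          have h2 : (P₀ : ℝ) ≤ p := by linarith
          exact_mod_cast h2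
        have hηp := hP₀ p hpP
        have hp1 : (1 : ℝ) ≤ p := by exact_mod_cast hpp.one_le
        refine le_trans ?_ h
        calc (x : ℝ) ^ (τ - 2 * δ : ℝ) ≤ (x : ℝ) ^ ((1 - δ) * (τ - δ) : ℝ) := by
              apply Real.rpow_le_rpow_of_exponent_le hx1'.le
              nlinarith
          _ = ((x : ℝ) ^ (1 - δ : ℝ)) ^ (τ - δ : ℝ) := Real.rpow_mul hx0.le _ _
          _ ≤ (p : ℝ) ^ (τ - δ : ℝ) := Real.rpow_le_rpow (by positivity) hpge (by linarith)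
          _ ≤ (p : ℝ) ^ (τ - η p : ℝ) := Real.rpow_le_rpow_of_exponent_le hp1 (by linarith)
    by_cases hlz : l ≤ zr r x
    · apply mem_union_left
      rw [hBm, mem_biUnion]
      exact ⟨l, mem_filter.2 ⟨mem_PP'.2 ⟨hlz, hl⟩, hQl⟩, mem_filter.2 ⟨hp.1, hG i p l hpp hp.2.1 hli⟩⟩
    · apply mem_union_right
      apply mem_union_left
      rw [hBl, mem_filter]
      exact ⟨hp.1, hp.2.1, l, hl, not_le.1 hlz, hli⟩
  have hQsum : ∑ l ∈ (PP (zr r x)).filter Q, (1 / (l : ℝ)) ≤ ε / (32 * 1408) + 20 * ((r : ℝ) + 1) * δ := by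
    have h1 : (PP (zr r x)).filter Q ⊆ (PP (zr r x)).filter (fun l => l ∈ R ∧ y < l) ∪
        (PP (zr r x)).filter (fun l : ℕ => (x : ℝ) ^ (τ - 2 * δ : ℝ) ≤ l) := by
      intro l hl
      rw [mem_filter, hQ] at hl
      rw [mem_union, mem_filter, mem_filter]
      rcases hl.2 with h | h
      · exact Or.inl ⟨hl.1, h⟩
      · exact Or.inr ⟨hl.1, h⟩
    have h2 := sum_le_sum_of_subset_of_nonneg (f := fun l : ℕ => 1 / (l : ℝ)) h1 fun _ _ _ => by positivity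
    have h3 := sum_union_inter (s₁ := (PP (zr r x)).filter (fun l => l ∈ R ∧ y < l))
      (s₂ := (PP (zr r x)).filter (fun l : ℕ => (x : ℝ) ^ (τ - 2 * δ : ℝ) ≤ l)) (f := fun l : ℕ => 1 / (l : ℝ))
    have h4 : 0 ≤ ∑ l ∈ (PP (zr r x)).filter (fun l => l ∈ R ∧ y < l) ∩
      (PP (zr r x)).filter (fun l : ℕ => (x : ℝ) ^ (τ - 2 * δ : ℝ) ≤ l), 1 / (l : ℝ) :=
      sum_nonneg fun _ _ => by positivity
    have h5 := hytail ((PP (zr r x)).filter (fun l => l ∈ R ∧ y < l)) (fun l hl => (mem_filter.1 hl).2)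
    have h6 := hx₃ x k3 ((PP (zr r x)).filter (fun l : ℕ => (x : ℝ) ^ (τ - 2 * δ : ℝ) ≤ l))
      (fun l hl => ⟨(mem_PP'.1 (mem_filter.1 hl).1).2, (mem_PP'.1 (mem_filter.1 hl).1).1, by
        rw [← hτ]
        exact (mem_filter.1 hl).2⟩)
    linarith
  have hBmc : (Bm.card : ℝ) ≤ ε / 16 * P := by
    have h1 : (Bm.card : ℝ) ≤ ∑ l ∈ (PP (zr r x)).filter Q, (((PP x).filter (fun p => l ∣ p - 1)).card : ℝ) := by
      rw [hBm]
      exact_mod_cast card_biUnion_le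
    have h2 : ∑ l ∈ (PP (zr r x)).filter Q, (((PP x).filter (fun p => l ∣ p - 1)).card : ℝ) ≤
        ∑ l ∈ (PP (zr r x)).filter Q, 352 * ((x : ℝ) / Real.log x) * (1 / (l : ℝ)) :=
      sum_le_sum fun l hl => hbtr l (mem_filter.1 hl).1
    rw [← mul_sum] at h2
    have h0 : 0 ≤ ∑ l ∈ (PP (zr r x)).filter Q, (1 / (l : ℝ)) := sum_nonneg fun _ _ => by positivity
    calc (Bm.card : ℝ) ≤ 352 * ((x : ℝ) / Real.log x) * ∑ l ∈ (PP (zr r x)).filter Q, (1 / (l : ℝ)) := h1.trans h2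
      _ ≤ 352 * (4 * P) * (ε / (32 * 1408) + 20 * ((r : ℝ) + 1) * δ) := by
            apply mul_le_mul _ hQsum h0 (by positivity)
            linarith
      _ = (ε / 32 + 1408 * (20 * ((r : ℝ) + 1) * δ)) * P := by ring
      _ ≤ (ε / 32 + ε / 32) * P := mul_le_mul_of_nonneg_right (by linarith) hPpos.le
      _ = ε / 16 * P := by ring
  have hfl : (⌊(x : ℝ) ^ (1 - δ : ℝ)⌋₊ : ℝ) ≤ (x : ℝ) ^ (1 - δ : ℝ) := Nat.floor_le (by positivity)
  have b3 : (x : ℝ) ^ (1 - δ : ℝ) ≤ ε / 32 * P := by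
    have h1 : (x : ℝ) ^ (1 - δ : ℝ) * x ^ δ = x := by
      rw [← Real.rpow_add hx0]
      norm_num
    have h2 : (x : ℝ) ^ (1 - δ : ℝ) * Real.log x ≤ ε / 128 * x := by
      calc (x : ℝ) ^ (1 - δ : ℝ) * Real.log x ≤ (x : ℝ) ^ (1 - δ : ℝ) * (ε / 128 * x ^ δ) :=
            mul_le_mul_of_nonneg_left m2 (by positivity)
        _ = ε / 128 * ((x : ℝ) ^ (1 - δ : ℝ) * x ^ δ) := by ring
        _ = _ := by rw [h1]
    have h3 : (x : ℝ) ^ (1 - δ : ℝ) * Real.log x ≤ (ε / 32 * P) * Real.log x := by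
      refine h2.trans ?_
      have : (x : ℝ) ≤ 4 * (P * Real.log x) := by linarith
      calc ε / 128 * (x : ℝ) ≤ ε / 128 * (4 * (P * Real.log x)) := mul_le_mul_of_nonneg_left this (by positivity)
        _ = _ := by ring
    exact le_of_mul_le_mul_right h3 hlog
  have b4 : (1 : ℝ) ≤ ε / 16 * P := by
    have h1 := mul_le_mul_of_nonneg_left m4 (show 0 ≤ ε / 16 by positivity)
    have h2 : ε / 16 * ((1 : ℝ) * (16 / ε)) = 1 := by
      field_simp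
    linarith
  have hcount : ∀ i, ((F i).card : ℝ) ≤ (T i).card + (Bl i).card + ε / 4 * P := by
    intro i
    have hc1 := (card_le_card (hcover i)).trans ((card_union_le _ _).trans (add_le_add_right
      ((card_union_le _ _).trans (add_le_add_right (card_union_le _ _) _)) _))
    rw [card_range] at hc1
    have hc2 : ((F i).card : ℝ) ≤ (T i).card + (Bm.card + ((Bl i).card + ((⌊(x : ℝ) ^ (1 - δ : ℝ)⌋₊ : ℝ) + 1))) := by
      exact_mod_cast hc1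
    linarith
  have hFA : ∀ i, |((F i).card : ℝ) - A i * P| ≤ ε / 8 * P := by
    intro i
    have h1 := hx₁ i
    have h2 := hyA i
    have h3 : |((F i).card : ℝ) / P - A i| ≤ ε / 8 := by
      have := abs_sub_le (((F i).card : ℝ) / P) (Ay i y) (A i)
      linarith
    have h4 : ((F i).card : ℝ) - A i * P = (((F i).card : ℝ) / P - A i) * P := by
      rw [sub_mul, div_mul_cancel₀ _ hPpos.ne']
    rw [h4, abs_mul, abs_of_pos hPpos]
    exact mul_le_mul_of_nonneg_right h3 hPpos.le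
  refine ⟨fun i => ?_, ?_⟩
  · have h1 : ((T i).card : ℝ) ≤ (F i).card := by exact_mod_cast card_le_card (hTF i)
    have h2 := abs_le.1 (hFA i)
    have h3 : 0 ≤ ε * P := by positivity
    have h4 : (A i + ε) * P = A i * P + ε * P := by ring
    rw [h4]
    linarith [h2.2]
  · -- the number of the exceptions
    obtain ⟨Ex, hEx⟩ : ∃ Ex : Finset ι, Ex = univ.filter (fun i => ((T i).card : ℝ) < (A i - ε) * P) := ⟨_, rfl⟩
    rw [← hEx]
    have h1 : ∀ i ∈ Ex, ε / 2 * P ≤ (Bl i).card := by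
      intro i hi
      rw [hEx, mem_filter] at hi
      have h2 := abs_le.1 (hFA i)
      have h3 := hcount i
      have h4 := hi.2
      have h5 : (A i - ε) * P = A i * P - ε * P := by ring
      rw [h5] at h4
      have h6 : 0 ≤ ε * P := by positivity
      have h7 : ε / 2 * P = ε * P / 2 := by ring
      have h8 : ε / 8 * P = ε * P / 8 := by ring
      have h9 : ε / 4 * P = ε * P / 4 := by ring
      rw [h8] at h2
      rw [h9] at h3
      rw [h7]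
      linarith [h2.1]
    have h2 : (Ex.card : ℝ) * (ε / 2 * P) ≤ ∑ i, ((Bl i).card : ℝ) := by
      rw [← nsmul_eq_mul]
      refine (card_nsmul_le_sum Ex (fun i => ((Bl i).card : ℝ)) _ h1).trans ?_
      apply sum_le_sum_of_subset_of_nonneg (subset_univ _)
      intro i _ _
      exact Nat.cast_nonneg _
    have h3 := total ι u ρ x hu G idx hG hbt
    rw [← hr] at h3
    have h4 : ∑ i, ((Bl i).card : ℝ) = ∑ i, (#((PP x).filter
        (fun p => G i p ∧ ∃ l : ℕ, l.Prime ∧ zr r x < l ∧ l ∣ idx i p)) : ℝ) := by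
      rw [hBl]
    have h5 : (Fintype.card ι : ℝ) * #((PP x).filter (fun p => ∃ j l : ℕ, 1 ≤ j ∧ j ≤ u ∧ l.Prime ∧ zr (ρ * j) x < l ∧
        j ≤ #(univ.filter (fun i => G i p ∧ l ∣ idx i p)))) ≤ ε / 16 * P := by
      refine (mul_le_mul_of_nonneg_left hC (Nat.cast_nonneg _)).trans ?_
      have h6 : (x : ℝ) / Real.log x ^ 2 = (x : ℝ) / Real.log x * (1 / Real.log x) := by
        field_simp
      rw [h6, ← mul_assoc]
      have h7 : (Fintype.card ι : ℝ) * C * (1 / Real.log x) ≤ ε / 64 := by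
        rw [mul_one_div, div_le_iff₀ hlog]
        rw [div_le_iff₀ hε] at m3
        linarith
      calc (Fintype.card ι : ℝ) * C * ((x : ℝ) / Real.log x * (1 / Real.log x)) =
            ((Fintype.card ι : ℝ) * C * (1 / Real.log x)) * ((x : ℝ) / Real.log x) := by ring
        _ ≤ ε / 64 * (4 * P) := mul_le_mul h7 hxP (by positivity) (by positivity)
        _ = ε / 16 * P := by ring
    have hu1 : (1 : ℝ) ≤ u := by exact_mod_cast hu
    have h6 : 352 * ((x : ℝ) / Real.log x) * ∑ j ∈ Ico 1 u, ∑ l ∈ Dz ρ u j x, (1 : ℝ) / l ≤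
        (1408 * ((u : ℝ) - 1) + ε / 32) * P := by
      have h0 : 0 ≤ ∑ j ∈ Ico 1 u, ∑ l ∈ Dz ρ u j x, (1 : ℝ) / l :=
        sum_nonneg fun _ _ => sum_nonneg fun _ _ => by positivity
      calc 352 * ((x : ℝ) / Real.log x) * ∑ j ∈ Ico 1 u, ∑ l ∈ Dz ρ u j x, (1 : ℝ) / l ≤
            352 * (4 * P) * ((u : ℝ) - 1 + ε / (32 * 1408)) := by
              apply mul_le_mul _ hDz h0 (by positivity)
              linarith
        _ = _ := by ring
    have h7 : (Ex.card : ℝ) * (ε / 2 * P) ≤ (1408 * ((u : ℝ) - 1) + ε / 8) * P := by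
      have h8 := h2.trans ((le_of_eq h4).trans h3)
      have h9 : ε / 16 * P + (1408 * ((u : ℝ) - 1) + ε / 32) * P ≤ (1408 * ((u : ℝ) - 1) + ε / 8) * P := by
        nlinarith
      linarith
    have h8 : (Ex.card : ℝ) * (ε / 2) ≤ 1408 * ((u : ℝ) - 1) + ε / 8 := by
      have h9 : ((Ex.card : ℝ) * (ε / 2)) * P ≤ (1408 * ((u : ℝ) - 1) + ε / 8) * P := by
        linarith
      exact le_of_mul_le_mul_right h9 hPpos
    rw [le_div_iff₀ hε]
    rcases Nat.lt_or_ge 1 u with h | h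
    · have hu2 : (2 : ℝ) ≤ u := by exact_mod_cast h
      linarith
    · have hu1' : u = 1 := le_antisymm h hu
      subst hu1'
      push_cast at h8 ⊢
      have h9 : Ex.card = 0 := by
        by_contra hne
        have h10 : (1 : ℝ) ≤ Ex.card := by exact_mod_cast Nat.pos_of_ne_zero hne
        nlinarith
      rw [h9]
      norm_num

end Pool.Agent.T6.H1.Lz
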