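import Pool.Agent.T6.H1.Ar.Main

/-! # Arbitrary sets of primes and of bases, for a general family of conditions -/

set_option autoImplicit false

namespace Pool.Agent.T6.H1.Lz

open Finset Filter
open Pool.Agent.R459.Eq (mean Per co pi_lower' small_ev)
open Pool.Agent.T6.H1.Sm (Rep count_div co_rep second)
open Pool.Agent.T6.H1.Pm (Gc mu mu_mem mu_mean sum_inv sh fc_sh secondm)
open Pool.Agent.T6.H1.Ar (Cnd L_ge lam elem2 cheb prep compare)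

/-- the error terms -/
lemma Lsum3 (η : ℝ) (hη : 0 < η) : ∃ X : ℕ, 4 ≤ X ∧ ∀ (x : ℕ) (L Q : ℝ), X ≤ x → 1 / 2 ≤ L →
    (x : ℝ) ^ (1 / 2 + η) * L ≤ Q → 3 * (1 + Real.log x) + 6 * L ≤ (x : ℝ) ^ (-(η / 8)) * Q / 2 := by
  have h1 := (isLittleO_log_rpow_atTop (show (0 : ℝ) < 1 / 4 by norm_num)).bound (show (0 : ℝ) < 1 by norm_num)
  have h2 : ∀ᶠ x : ℝ in atTop, (20 : ℝ) ≤ x ^ (1 / 4 : ℝ) :=
    (tendsto_rpow_atTop (by norm_num)).eventually_ge_atTop _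
  have h3 : ∀ᶠ x : ℝ in atTop, Real.log x ≤ x ^ (1 / 4 : ℝ) ∧ (20 : ℝ) ≤ x ^ (1 / 4 : ℝ) := by
    filter_upwards [h1, h2, eventually_ge_atTop (1 : ℝ)] with x hx hx' hx1
    rw [Real.norm_of_nonneg (Real.log_nonneg hx1), Real.norm_of_nonneg (by positivity), one_mul] at hx
    exact ⟨hx, hx'⟩
  obtain ⟨X, hX⟩ := eventually_atTop.1 ((tendsto_natCast_atTop_atTop (R := ℝ)).eventually h3)
  refine ⟨max X 4, le_max_right _ _, fun x L Q hx hL hQ => ?_⟩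
  obtain ⟨hl, he⟩ := hX x ((le_max_left _ _).trans hx)
  have hx4 : 4 ≤ x := (le_max_right _ _).trans hx
  have hx4' : (4 : ℝ) ≤ x := by exact_mod_cast hx4
  have hx0 : (0 : ℝ) < x := by linarith
  have hx1 : (1 : ℝ) ≤ x := by linarith
  obtain ⟨y, hy⟩ : ∃ y, y = (x : ℝ) ^ (1 / 4 : ℝ) := ⟨_, rfl⟩
  rw [← hy] at hl he
  have h4 : y * y ≤ (x : ℝ) ^ (-(η / 8)) * (x : ℝ) ^ (1 / 2 + η) := by
    rw [hy, ← Real.rpow_add hx0, ← Real.rpow_add hx0]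
    apply Real.rpow_le_rpow_of_exponent_le hx1
    linarith
  have h5 : (x : ℝ) ^ (-(η / 8)) * ((x : ℝ) ^ (1 / 2 + η) * L) ≤ (x : ℝ) ^ (-(η / 8)) * Q :=
    mul_le_mul_of_nonneg_left hQ (by positivity)
  have h6 : y * y * L ≤ (x : ℝ) ^ (-(η / 8)) * Q := by
    refine le_trans ?_ h5
    rw [← mul_assoc]
    exact mul_le_mul_of_nonneg_right h4 (by linarith)
  have h7 : y * (1 / 2) ≤ y * L := mul_le_mul_of_nonneg_left hL (by linarith)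
  have h8 : 20 * (y * L) ≤ y * (y * L) := mul_le_mul_of_nonneg_right he (by positivity)
  have h9 : 20 * L ≤ y * L := mul_le_mul_of_nonneg_right he (by linarith)
  have h10 : y * y * L = y * (y * L) := by ring
  rw [h10] at h6
  linarith

open Classical in
/-- **sums** -/
theorem sums (η : ℝ) (hη : 0 < η) : ∃ X : ℕ, 4 ≤ X ∧ ∀ (x N : ℕ) (f : ℕ → ℤ → ℝ) (P : Finset ℕ) (U V : Finset ℤ),
    X ≤ x → (∀ p n, 0 ≤ f p n ∧ f p n ≤ 1) → (∀ p, Per p (f p)) →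
    (∀ (p : ℕ) (hp : p.Prime), p ∈ P → @Rep p ⟨hp⟩ (f p) ((p - 1).divisors.card : ℝ)) →
    Cnd η x N 1 P U V →
    (((U ×ˢ V).filter (fun z => (x : ℝ) ^ (-(η / 8)) * P.card / 2 <
      |∑ p ∈ P, (f p (z.1 + z.2) - mean p (f p))|)).card : ℝ) ≤
      (x : ℝ) ^ (-(η / 8)) * (U.card * V.card) := by
  obtain ⟨C1, X, hC1, hX4, hX⟩ := prep η hη
  refine ⟨X, hX4, fun x N f P U V hx hf01 hper hrep h => ?_⟩
  have hx1 : 1 ≤ x := by omega
  have hx1' : (1 : ℝ) ≤ x := by exact_mod_cast hx1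
  have hx0 : (0 : ℝ) < x := by linarith
  obtain ⟨hbig, hdiv⟩ := hX x hx
  obtain ⟨ha, hb, hQ0, hQ⟩ := h.pos hx1
  have hL := L_ge N h.hN
  have hL0 : 0 < Real.log (2 * N) := by linarith
  obtain ⟨T, hT⟩ : ∃ T : ℝ, T = Real.sqrt (C1 * (x : ℝ) ^ (η / 16)) := ⟨_, rfl⟩
  have hT0 : 0 ≤ T := by rw [hT]; positivity
  have hT2 : T ^ 2 = C1 * (x : ℝ) ^ (η / 16) := by rw [hT]; exact Real.sq_sqrt (by positivity)
  have hco : ∀ p ∈ P, ∀ a ∈ Ico 1 p, ‖co p (f p) a‖ ≤ T / Real.sqrt p := by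
    intro p hp a ha
    obtain ⟨hp1, hp2, -⟩ := h.hP p hp
    have : Fact p.Prime := ⟨hp1⟩
    refine (co_rep (f p) (hf01 p) _ (hrep p hp1 hp) a ha).trans ?_
    apply div_le_div_of_nonneg_right _ (Real.sqrt_nonneg _)
    rw [hT]
    apply Real.le_sqrt_of_sq_le
    refine le_trans ?_ (hdiv p hp1 hp2)
    have h0 : (0 : ℝ) ≤ ((p - 1).divisors.card : ℝ) := Nat.cast_nonneg _
    nlinarith
  have hsec := second U V x P (fun p hp => ⟨(h.hP p hp).1.one_le, (h.hP p hp).2.1⟩) f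
    (fun p n => hf01 p n) (fun p _ => hper p) T hT0 hco (2 * Real.log (2 * N)) (by positivity)
    (lam P (fun p hp => (h.hP p hp).1) N U h.hU) (lam P (fun p hp => (h.hP p hp).1) N V h.hV)
  have hel := elem2 η x (Real.log (2 * N)) U.card V.card P.card hη hx1' hL0 ha hb hQ0 h.hUV h.hLU h.hLV h.hQ
  have hsec' : ∑ z ∈ U ×ˢ V, (∑ p ∈ P, (f p (z.1 + z.2) - mean p (f p))) ^ 2 ≤
      (P.card : ℝ) * (U.card * V.card) + T ^ 2 * x *
        Real.sqrt (((U.card : ℝ) * (P.card : ℝ) ^ 2 + (U.card : ℝ) ^ 2 * (2 * Real.log (2 * N)) ^ 2) *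
          ((V.card : ℝ) * (P.card : ℝ) ^ 2 + (V.card : ℝ) ^ 2 * (2 * Real.log (2 * N)) ^ 2)) := by
    refine le_trans (le_of_eq ?_) hsec
    exact sum_product' U V (fun u v => (∑ p ∈ P, (f p (u + v) - mean p (f p))) ^ 2)
  exact cheb (U ×ˢ V) (fun z => ∑ p ∈ P, (f p (z.1 + z.2) - mean p (f p))) η x U.card V.card P.card T C1
    hη hx1' hQ hT2.le ha hb hC1 _ hel hsec' hbig

open Classical in
/-- **shifted products** -/
theorem prods (η : ℝ) (hη : 0 < η) : ∃ X : ℕ, 4 ≤ X ∧ ∀ (x N : ℕ) (f : ℕ → ℤ → ℝ) (P : Finset ℕ) (U V : Finset ℤ) (c : ℤ),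
    X ≤ x → (∀ p n, 0 ≤ f p n ∧ f p n ≤ 1) → (∀ p, Per p (f p)) →
    (∀ (p : ℕ) (hp : p.Prime), p ∈ P → @Rep p ⟨hp⟩ (f p) ((p - 1).divisors.card : ℝ)) →
    Cnd η x N 1 P U V → c ≠ 0 → |c| ≤ N → 0 ∉ U → 0 ∉ V →
    (((U ×ˢ V).filter (fun z => (x : ℝ) ^ (-(η / 8)) * P.card / 2 + 2 * (1 + Real.log x) + 6 * Real.log (2 * N) <
      |∑ p ∈ P, f p (z.1 * z.2 + c) - ∑ p ∈ P, mean p (f p)|)).card : ℝ) ≤
      (x : ℝ) ^ (-(η / 8)) * (U.card * V.card) := by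
  obtain ⟨C1, X, hC1, hX4, hX⟩ := prep η hη
  refine ⟨X, hX4, fun x N f P U V c hx hf01 hper hrep h hc hcN hU0 hV0 => ?_⟩
  have hx1 : 1 ≤ x := by omega
  have hx1' : (1 : ℝ) ≤ x := by exact_mod_cast hx1
  have hx0 : (0 : ℝ) < x := by linarith
  obtain ⟨hbig, hdiv⟩ := hX x hx
  obtain ⟨ha, hb, hQ0, hQ⟩ := h.pos hx1
  have hL := L_ge N h.hN
  have hL0 : 0 < Real.log (2 * N) := by linarith
  obtain ⟨T, hT⟩ : ∃ T : ℝ, T = Real.sqrt (C1 * (x : ℝ) ^ (η / 16)) := ⟨_, rfl⟩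
  have hT0 : 0 ≤ T := by rw [hT]; positivity
  have hT2 : T ^ 2 = C1 * (x : ℝ) ^ (η / 16) := by rw [hT]; exact Real.sq_sqrt (by positivity)
  obtain ⟨P', hP'⟩ : ∃ P', P' = P.filter (fun p : ℕ => ¬ (p : ℤ) ∣ c) := ⟨_, rfl⟩
  have hP'P : P' ⊆ P := by rw [hP']; exact filter_subset _ _
  have hPP : ∀ p ∈ P', p.Prime ∧ p ≤ x := fun p hp => ⟨(h.hP p (hP'P hp)).1, (h.hP p (hP'P hp)).2.1⟩
  have hco : ∀ (p : ℕ) (hp : p ∈ P'), ∀ ψ : DirichletCharacter ℂ p, ψ ≠ 1 →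
      ‖@Pool.Agent.H730R2.AA.Exp.fc p ⟨(hPP p hp).1⟩ (@sh p ⟨(hPP p hp).1⟩ c (f p)) ψ‖ ≤ T / Real.sqrt p := by
    intro p hp ψ hψ
    obtain ⟨hp1, hp2, -⟩ := h.hP p (hP'P hp)
    have hpc : ¬ (p : ℤ) ∣ c := by
      rw [hP', mem_filter] at hp
      exact hp.2
    have : Fact p.Prime := ⟨hp1⟩
    refine (fc_sh (f p) (hf01 p) (hper p) _ (hrep p hp1 (hP'P hp)) c hpc ψ hψ).trans ?_
    apply div_le_div_of_nonneg_right _ (Real.sqrt_nonneg _)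
    rw [hT]
    exact Real.le_sqrt_of_sq_le (hdiv p hp1 hp2)
  have hsec := secondm U V c x P' hPP f
    (fun p n => hf01 p n) (fun p _ => hper p) T hT0 hco (2 * Real.log (2 * N)) (by positivity)
    (lam P' (fun p hp => (hPP p hp).1) N U h.hU) (lam P' (fun p hp => (hPP p hp).1) N V h.hV)
  have hcard : (P'.card : ℝ) ≤ P.card := by exact_mod_cast card_le_card hP'P
  have hel := elem2 η x (Real.log (2 * N)) U.card V.card P.card hη hx1' hL0 ha hb hQ0 h.hUV h.hLU h.hLV h.hQ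
  have hsec' : ∑ z ∈ U ×ˢ V, (∑ p ∈ P', Gc p c (f p) (z.1 * z.2)) ^ 2 ≤
      (P.card : ℝ) * (U.card * V.card) + T ^ 2 * x *
        Real.sqrt (((U.card : ℝ) * (P.card : ℝ) ^ 2 + (U.card : ℝ) ^ 2 * (2 * Real.log (2 * N)) ^ 2) *
          ((V.card : ℝ) * (P.card : ℝ) ^ 2 + (V.card : ℝ) ^ 2 * (2 * Real.log (2 * N)) ^ 2)) := by
    have e : ∑ z ∈ U ×ˢ V, (∑ p ∈ P', Gc p c (f p) (z.1 * z.2)) ^ 2 =
        ∑ u ∈ U, ∑ v ∈ V, (∑ p ∈ P', Gc p c (f p) (u * v)) ^ 2 :=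
      sum_product' U V (fun u v => (∑ p ∈ P', Gc p c (f p) (u * v)) ^ 2)
    rw [e]
    refine hsec.trans ?_
    gcongr
  have hfin := cheb (U ×ˢ V) (fun z => ∑ p ∈ P', Gc p c (f p) (z.1 * z.2)) η x U.card V.card P.card T C1
    hη hx1' hQ hT2.le ha hb hC1 _ hel hsec' hbig
  refine le_trans ?_ hfin
  have hcdiv : ((P.filter (fun p : ℕ => (p : ℤ) ∣ c)).card : ℝ) ≤ 2 * Real.log (2 * N) := by
    apply count_div _ (fun p hp => (h.hP p hp).1) _ hc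
    have h3 : c.natAbs ≤ 2 * N := by
      rw [abs_le] at hcN
      omega
    exact_mod_cast h3
  have hsub : (U ×ˢ V).filter (fun z => (x : ℝ) ^ (-(η / 8)) * P.card / 2 + 2 * (1 + Real.log x) + 6 * Real.log (2 * N) <
      |∑ p ∈ P, f p (z.1 * z.2 + c) - ∑ p ∈ P, mean p (f p)|) ⊆
      (U ×ˢ V).filter (fun z => (x : ℝ) ^ (-(η / 8)) * P.card / 2 <
        |∑ p ∈ P', Gc p c (f p) (z.1 * z.2)|) := by
    intro z hz
    rw [mem_filter] at hz ⊢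
    refine ⟨hz.1, ?_⟩
    have hzz := mem_product.1 hz.1
    have hz1 : z.1 ≠ 0 := fun h0 => hU0 (h0 ▸ hzz.1)
    have hz2 : z.2 ≠ 0 := fun h0 => hV0 (h0 ▸ hzz.2)
    have hmdiv : ((P.filter (fun p : ℕ => (p : ℤ) ∣ z.1 * z.2)).card : ℝ) ≤ 2 * (2 * Real.log (2 * N)) := by
      have h6 := count_div P (fun p hp => (h.hP p hp).1) (z.1 * z.2)
        (mul_ne_zero hz1 hz2) ((2 * N : ℝ) ^ 2) ?_
      · rw [Real.log_pow] at h6
        push_cast at h6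
        linarith
      · have h7 : z.1.natAbs ≤ N := by have := h.hU z.1 hzz.1; rw [abs_le] at this; omega
        have h8 : z.2.natAbs ≤ N := by have := h.hV z.2 hzz.2; rw [abs_le] at this; omega
        rw [Int.natAbs_mul]
        have h9 : z.1.natAbs * z.2.natAbs ≤ (2 * N) ^ 2 := by
          calc z.1.natAbs * z.2.natAbs ≤ N * N := Nat.mul_le_mul h7 h8
            _ ≤ (2 * N) ^ 2 := by nlinarith
        exact_mod_cast h9
    have h6 := compare P x (fun p hp => ⟨(h.hP p hp).1, (h.hP p hp).2.1⟩) f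
      (fun p n => hf01 p n) (fun p _ => hper p) c (z.1 * z.2) (2 * Real.log (2 * N)) hcdiv hmdiv
    have h8 := hz.2
    rw [hP']
    linarith
  exact_mod_cast card_le_card hsub

end Pool.Agent.T6.H1.Lz
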